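import Pool.Agent.KS6_69.DM.Defs

open Set Filter Topology MeasureTheory Complex
open scoped ContDiff

namespace Pool.Agent.KS6_69.DM

/-- principal square root of a nonzero number -/
noncomputable def sq (w : ℂ) : ℂ := exp (log w / 2)

theorem sq_sq {w : ℂ} (hw : w ≠ 0) : sq w ^ 2 = w := by
  rw [sq, ← exp_nat_mul]
  have : ((2 : ℕ) : ℂ) * (log w / 2) = log w := by push_cast; ring
  rw [this, exp_log hw]

theorem sq_ne (w : ℂ) : sq w ≠ 0 := exp_ne_zero _

theorem sq_one : sq 1 = 1 := by simp [sq]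

theorem re_sq_pos {w : ℂ} (hw : w ∈ slitPlane) : 0 < (sq w).re := by
  rw [sq, exp_re]
  refine mul_pos (Real.exp_pos _) ?_
  have h1 : (log w / 2).im = arg w / 2 := by
    have : (log w / 2) = (log w) / ((2 : ℝ) : ℂ) := by norm_num
    rw [this, div_ofReal_im, log_im]
  rw [h1]
  have h2 := mem_slitPlane_iff_arg.1 hw
  refine Real.cos_pos_of_mem_Ioo ⟨?_, ?_⟩
  · have := neg_pi_lt_arg w; linarith
  · have := lt_of_le_of_ne (arg_le_pi w) h2.1; linarith

theorem continuousAt_sq {w : ℂ} (hw : w ∈ slitPlane) : ContinuousAt sq w :=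
  ((continuousAt_clog hw).div_const 2).cexp

theorem eq_of_sq_eq {a b c : ℂ} (h : a ^ 2 = b ^ 2) (ha : 0 < (a / c).re) (hb : 0 < (b / c).re) :
    a = b := by
  rcases sq_eq_sq_iff_eq_or_eq_neg.1 h with h | h
  · exact h
  · rw [h, neg_div, neg_re] at ha
    linarith

variable (m : ℕ) [hm : Fact m.Prime]

instance : NeZero m := ⟨hm.out.ne_zero⟩

/-- the `m`-th roots of unity -/
noncomputable def v (j : ZMod m) : ℂ := ZMod.stdAddChar j

theorem v_add (i j : ZMod m) : v m (i + j) = v m i * v m j := AddChar.map_add_eq_mul _ _ _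

theorem v_zero : v m 0 = 1 := AddChar.map_zero_eq_one _

theorem v_inj : Function.Injective (v m) := ZMod.injective_stdAddChar

theorem v_norm (j : ZMod m) : ‖v m j‖ = 1 := AddChar.norm_apply _ _

theorem v_ne (j : ZMod m) : v m j ≠ 0 := by
  intro h; have := v_norm m j; rw [h] at this; simp at this

theorem v_neg (j : ZMod m) : v m (-j) * v m j = 1 := by rw [← v_add, neg_add_cancel, v_zero]

/-- complement of the roots of unity -/
def good (z : ℂ) : Prop := ∀ j, z ≠ v m j

theorem isOpen_good : IsOpen {z | good m z} := by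
  have : {z | good m z} = ⋂ j, {z | z ≠ v m j} := by ext; simp [good]
  rw [this]
  exact isOpen_iInter_of_finite fun j => isOpen_ne

/-- the curve -/
noncomputable def Curve : Type := {p : ℂ × (ZMod m → ℂ) // good m p.1 ∧
  (∀ j, p.2 j ^ 2 * (p.1 - v m (j + 1)) = p.1 - v m j) ∧ ∏ j, p.2 j = 1}

noncomputable instance : TopologicalSpace (Curve m) := instTopologicalSpaceSubtype
instance : T2Space (Curve m) := inferInstanceAs (T2Space (Subtype _))
instance : SecondCountableTopology (Curve m) := inferInstanceAs (SecondCountableTopology (Subtype _))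

variable {m}

/-- projection to the plane -/
noncomputable def pr (x : Curve m) : ℂ := x.1.1

/-- constructor -/
noncomputable def Curve.mk' (z : ℂ) (t : ZMod m → ℂ) (h1 : good m z)
    (h2 : ∀ j, t j ^ 2 * (z - v m (j + 1)) = z - v m j) (h3 : ∏ j, t j = 1) : Curve m :=
  ⟨(z, t), h1, h2, h3⟩

/-- the other coordinates -/
noncomputable def tt (x : Curve m) (j : ZMod m) : ℂ := x.1.2 j

@[simp] theorem pr_mk' (z : ℂ) (t : ZMod m → ℂ) (h1 : good m z)
    (h2 : ∀ j, t j ^ 2 * (z - v m (j + 1)) = z - v m j) (h3 : ∏ j, t j = 1) :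
    pr (Curve.mk' z t h1 h2 h3) = z := rfl

@[simp] theorem tt_mk' (z : ℂ) (t : ZMod m → ℂ) (h1 : good m z)
    (h2 : ∀ j, t j ^ 2 * (z - v m (j + 1)) = z - v m j) (h3 : ∏ j, t j = 1) (j : ZMod m) :
    tt (Curve.mk' z t h1 h2 h3) j = t j := rfl

theorem continuous_pr : Continuous (pr (m := m)) := continuous_fst.comp continuous_subtype_val

theorem continuous_tt (j : ZMod m) : Continuous fun x : Curve m => tt x j :=
  (continuous_apply j).comp (continuous_snd.comp continuous_subtype_val)

theorem pr_good (x : Curve m) : good m (pr x) := x.2.1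

theorem tt_eq (x : Curve m) (j : ZMod m) :
    tt x j ^ 2 * (pr x - v m (j + 1)) = pr x - v m j := x.2.2.1 j

theorem tt_prod (x : Curve m) : ∏ j, tt x j = 1 := x.2.2.2

theorem Curve.ext' {x y : Curve m} (h : pr x = pr y) (h2 : ∀ j, tt x j = tt y j) : x = y :=
  Subtype.ext (Prod.ext h (funext h2))

/-- the ratio -/
noncomputable def rr (j : ZMod m) (z : ℂ) : ℂ := (z - v m j) / (z - v m (j + 1))

theorem good.sub_ne {z : ℂ} (h : good m z) (j : ZMod m) : z - v m j ≠ 0 := sub_ne_zero.2 (h j)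

theorem tt_sq (x : Curve m) (j : ZMod m) : tt x j ^ 2 = rr j (pr x) := by
  rw [rr, eq_div_iff ((pr_good x).sub_ne _), tt_eq]

theorem rr_ne {z : ℂ} (h : good m z) (j : ZMod m) : rr j z ≠ 0 :=
  div_ne_zero (h.sub_ne _) (h.sub_ne _)

theorem tt_ne (x : Curve m) (j : ZMod m) : tt x j ≠ 0 := by
  intro h
  have := tt_sq x j
  rw [h] at this
  exact rr_ne (pr_good x) j (by rw [← this]; simp)

theorem rr_prod {z : ℂ} (h : good m z) : ∏ j : ZMod m, rr j z = 1 := by
  simp only [rr]
  rw [Finset.prod_div_distrib]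
  have : ∏ j : ZMod m, (z - v m (j + 1)) = ∏ j : ZMod m, (z - v m j) :=
    Fintype.prod_equiv (Equiv.addRight 1) _ _ (fun j => rfl)
  rw [this]
  exact div_self (Finset.prod_ne_zero_iff.2 fun j _ => h.sub_ne j)

theorem continuousAt_rr {z : ℂ} (h : good m z) (j : ZMod m) : ContinuousAt (rr (m := m) j) z := by
  unfold rr
  exact ContinuousAt.div (by fun_prop) (by fun_prop) (h.sub_ne _)

/-- local sections -/
noncomputable def cc (x : Curve m) (z : ℂ) (j : ZMod m) : ℂ := sq (rr j z / tt x j ^ 2)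

open Classical in
noncomputable def ls (x : Curve m) (z : ℂ) : Curve m :=
  if h : good m z ∧ ∏ j, (tt x j * cc x z j) = 1 then
    Curve.mk' z (fun j => tt x j * cc x z j) h.1 (fun j => by
      have h1 : rr j z / tt x j ^ 2 ≠ 0 := div_ne_zero (rr_ne h.1 j) (pow_ne_zero 2 (tt_ne x j))
      show (tt x j * cc x z j) ^ 2 * (z - v m (j + 1)) = z - v m j
      rw [mul_pow, cc, sq_sq h1, mul_div_cancel₀ _ (pow_ne_zero 2 (tt_ne x j)), rr,
        div_mul_cancel₀ _ (h.1.sub_ne _)]) h.2
  else x

theorem isLocalHomeomorph_pr : IsLocalHomeomorph (pr (m := m)) := by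
  apply IsLocalHomeomorph.mk
  intro x
  have hg := pr_good x
  have hcont : ∀ j, ContinuousAt (fun z => rr j z / tt x j ^ 2) (pr x) := fun j =>
    (continuousAt_rr hg j).div_const _
  have hone : ∀ j, rr j (pr x) / tt x j ^ 2 = 1 := fun j => by
    rw [← tt_sq]; exact div_self (pow_ne_zero 2 (tt_ne x j))
  have hcc : ∀ j, ContinuousAt (fun z => cc x z j) (pr x) := fun j => by
    unfold cc
    refine ContinuousAt.comp (g := sq) ?_ (hcont j)
    rw [hone]
    exact continuousAt_sq (by simp)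
  have hcc1 : ∀ j, cc x (pr x) j = 1 := fun j => by rw [cc, hone, sq_one]
  have e1 : ∀ᶠ z in 𝓝 (pr x), good m z := (isOpen_good m).mem_nhds hg
  have e2 : ∀ᶠ z in 𝓝 (pr x), ∀ j, 0 < (rr j z / tt x j ^ 2).re := by
    rw [eventually_all]
    intro j
    have := (continuous_re.continuousAt.comp (hcont j)).eventually_const_lt (u := 0)
      (by simp [hone])
    exact this
  have e3 : ∀ᶠ z in 𝓝 (pr x), 0 < (∏ j, cc x z j).re := by
    have h1 : ContinuousAt (fun z => ∏ j, cc x z j) (pr x) := tendsto_finsetProd _ fun j _ => hcc j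
    have := (continuous_re.continuousAt.comp h1).eventually_const_lt (u := 0)
      (by simp [hcc1])
    exact this
  obtain ⟨ε, hε, hball⟩ := Metric.eventually_nhds_iff_ball.1 (e1.and (e2.and e3))
  have hprod : ∀ z ∈ Metric.ball (pr x) ε, ∏ j, (tt x j * cc x z j) = 1 := by
    intro z hz
    obtain ⟨h1, h2, h3⟩ := hball z hz
    rw [Finset.prod_mul_distrib, tt_prod, one_mul]
    have h4 : (∏ j, cc x z j) ^ 2 = 1 := by
      rw [← Finset.prod_pow]
      have h5 : ∀ j, cc x z j ^ 2 = rr j z / tt x j ^ 2 := fun j =>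
        sq_sq (div_ne_zero (rr_ne h1 j) (pow_ne_zero 2 (tt_ne x j)))
      simp only [h5]
      rw [Finset.prod_div_distrib, rr_prod h1, Finset.prod_pow, tt_prod]
      norm_num
    rcases sq_eq_sq_iff_eq_or_eq_neg.1 (h4.trans (one_pow 2).symm) with h | h
    · exact h
    · rw [h] at h3; simp at h3; linarith
  have hls : ∀ z ∈ Metric.ball (pr x) ε, pr (ls x z) = z ∧ ∀ j, tt (ls x z) j = tt x j * cc x z j := by
    intro z hz
    have h : good m z ∧ ∏ j, (tt x j * cc x z j) = 1 := ⟨(hball z hz).1, hprod z hz⟩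
    rw [ls, dif_pos h]
    exact ⟨rfl, fun j => rfl⟩
  have hre : ∀ z ∈ Metric.ball (pr x) ε, ∀ j, 0 < (tt (ls x z) j / tt x j).re := by
    intro z hz j
    rw [(hls z hz).2 j, mul_div_cancel_left₀ _ (tt_ne x j)]
    exact re_sq_pos (Or.inl ((hball z hz).2.1 j))
  have hleft : ∀ y ∈ {y : Curve m | pr y ∈ Metric.ball (pr x) ε ∧ ∀ j, 0 < (tt y j / tt x j).re},
      ls x (pr y) = y := by
    rintro y ⟨hy1, hy2⟩
    refine Curve.ext' (hls _ hy1).1 fun j => ?_
    refine eq_of_sq_eq (c := tt x j) ?_ (hre _ hy1 j) (hy2 j)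
    rw [tt_sq, tt_sq, (hls _ hy1).1]
  have hopen : IsOpen {y : Curve m | pr y ∈ Metric.ball (pr x) ε ∧ ∀ j, 0 < (tt y j / tt x j).re} := by
    have : {y : Curve m | pr y ∈ Metric.ball (pr x) ε ∧ ∀ j, 0 < (tt y j / tt x j).re} =
        (pr ⁻¹' Metric.ball (pr x) ε) ∩ ⋂ j, {y | 0 < (tt y j / tt x j).re} := by
      ext y; simp
    rw [this]
    refine (Metric.isOpen_ball.preimage continuous_pr).inter (isOpen_iInter_of_finite fun j => ?_)
    exact isOpen_lt continuous_const (continuous_re.comp ((continuous_tt j).div_const _))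
  have hinv : ContinuousOn (ls x) (Metric.ball (pr x) ε) := by
    refine (Topology.IsInducing.continuousOn_iff
      (show Topology.IsInducing (fun y : Curve m => y.1) from Topology.IsInducing.subtypeVal)).2 ?_
    have : ∀ z ∈ Metric.ball (pr x) ε, (ls x z).1 = (z, fun j => tt x j * cc x z j) := by
      intro z hz
      exact Prod.ext (hls z hz).1 (funext (hls z hz).2)
    refine ContinuousOn.congr (f := fun z => (z, fun j => tt x j * cc x z j)) ?_ this
    refine continuousOn_id.prodMk (continuousOn_pi.2 fun j => ?_)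
    intro z hz
    refine ContinuousAt.continuousWithinAt ?_
    obtain ⟨h1, h2, h3⟩ := hball z hz
    refine continuousAt_const.mul ?_
    unfold cc
    exact ContinuousAt.comp (g := sq) (continuousAt_sq (Or.inl (h2 j)))
      ((continuousAt_rr h1 j).div_const _)
  refine ⟨{
    toFun := pr
    invFun := ls x
    source := {y | pr y ∈ Metric.ball (pr x) ε ∧ ∀ j, 0 < (tt y j / tt x j).re}
    target := Metric.ball (pr x) ε
    map_source' := fun y hy => hy.1
    map_target' := fun z hz => ⟨by rw [(hls z hz).1]; exact hz, hre z hz⟩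
    left_inv' := fun y hy => hleft y hy
    right_inv' := fun z hz => (hls z hz).1
    open_source := hopen
    open_target := Metric.isOpen_ball
    continuousOn_toFun := continuous_pr.continuousOn
    continuousOn_invFun := hinv }, ?_, ?_⟩
  · refine ⟨Metric.mem_ball_self hε, fun j => ?_⟩
    rw [div_self (tt_ne x j)]; simp
  · intro y _; rfl

end Pool.Agent.KS6_69.DM
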