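import Mathlib

open Set Filter Topology MeasureTheory
open scoped ContDiff

namespace Pool.Agent.KS6_69.DM

section basics

variable {X : Type*} [TopologicalSpace X] {π : X → ℂ} (hπ : IsLocalHomeomorph π)

/-- the expression of `u` near `x` in the local coordinate `π` -/
noncomputable def loc (u : X → ℝ) (x : X) : ℂ → ℝ := fun z => u (hπ.localInverseAt x z)

/-- differential of `u` at `x` in the coordinate `π` -/
noncomputable def dAt (u : X → ℝ) (x : X) : ℂ →L[ℝ] ℝ := fderiv ℝ (loc hπ u x) (π x)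

/-- `u` is `C^n` -/
def SmoothC (n : WithTop ℕ∞) (u : X → ℝ) : Prop := ∀ x, ContDiffAt ℝ n (loc hπ u x) (π x)

theorem localInverse_continuousAt (x : X) : ContinuousAt (hπ.localInverseAt x) (π x) :=
  (hπ.localInverseAt x).continuousAt hπ.apply_self_mem_localInverseAt_source

theorem tendsto_localInverse (x : X) : Tendsto (hπ.localInverseAt x) (𝓝 (π x)) (𝓝 x) := by
  have := localInverse_continuousAt hπ x
  rw [ContinuousAt, hπ.localInverseAt_apply_self] at this
  exact this

theorem π_localInverse (x : X) : ∀ᶠ z in 𝓝 (π x), π (hπ.localInverseAt x z) = z := by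
  filter_upwards [(hπ.localInverseAt x).open_source.mem_nhds
    hπ.apply_self_mem_localInverseAt_source] with z hz
  exact hπ.apply_localInverseAt_of_mem hz

/-- a continuous local section agrees with the local inverse -/
theorem section_eq {s : ℂ → X} {z₀ : ℂ} (hs : ContinuousAt s z₀) (hsπ : ∀ᶠ z in 𝓝 z₀, π (s z) = z) :
    ∀ᶠ z in 𝓝 z₀, s z = hπ.localInverseAt (s z₀) z := by
  have h0 : π (s z₀) = z₀ := hsπ.self_of_nhds
  have h1 : ∀ᶠ z in 𝓝 z₀, s z ∈ (hπ.localInverseAt (s z₀)).target :=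
    hs ((hπ.localInverseAt (s z₀)).open_target.mem_nhds hπ.self_mem_localInverseAt_target)
  have h2 := π_localInverse hπ (s z₀)
  rw [h0] at h2
  have h3 : ∀ᶠ z in 𝓝 z₀, hπ.localInverseAt (s z₀) z ∈ (hπ.localInverseAt (s z₀)).target := by
    have := (hπ.localInverseAt (s z₀)).open_source.mem_nhds
      hπ.apply_self_mem_localInverseAt_source
    rw [h0] at this
    filter_upwards [this] with z hz
    exact (hπ.localInverseAt (s z₀)).map_source hz
  filter_upwards [h1, h2, h3, hsπ] with z a b c d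
  exact hπ.injOn_localInverseAt_target a c (by rw [d, b])

theorem loc_eq {s : ℂ → X} {z₀ : ℂ} (u : X → ℝ) (hs : ContinuousAt s z₀)
    (hsπ : ∀ᶠ z in 𝓝 z₀, π (s z) = z) : (fun z => u (s z)) =ᶠ[𝓝 z₀] loc hπ u (s z₀) := by
  filter_upwards [section_eq hπ hs hsπ] with z hz
  rw [loc, ← hz]

theorem dAt_section {s : ℂ → X} {z₀ : ℂ} (u : X → ℝ) (hs : ContinuousAt s z₀)
    (hsπ : ∀ᶠ z in 𝓝 z₀, π (s z) = z) : dAt hπ u (s z₀) = fderiv ℝ (fun z => u (s z)) z₀ := by
  rw [dAt, hsπ.self_of_nhds, (loc_eq hπ u hs hsπ).fderiv_eq]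

theorem contDiffAt_section {s : ℂ → X} {z₀ : ℂ} {n : WithTop ℕ∞} {u : X → ℝ}
    (hu : SmoothC hπ n u) (hs : ContinuousAt s z₀)
    (hsπ : ∀ᶠ z in 𝓝 z₀, π (s z) = z) : ContDiffAt ℝ n (fun z => u (s z)) z₀ := by
  have h1 := hu (s z₀)
  rw [hsπ.self_of_nhds] at h1
  exact h1.congr_of_eventuallyEq (loc_eq hπ u hs hsπ)

/-- moving the base point -/
theorem loc_move (u : X → ℝ) (x : X) : ∀ᶠ y in 𝓝 x, loc hπ u y =ᶠ[𝓝 (π y)] loc hπ u x := by
  have h1 : ∀ᶠ y in 𝓝 x, y ∈ (hπ.localInverseAt x).target :=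
    (hπ.localInverseAt x).open_target.mem_nhds hπ.self_mem_localInverseAt_target
  filter_upwards [h1] with y hy
  let s : ℂ → X := fun z => hπ.localInverseAt x z
  have hπy : π y ∈ (hπ.localInverseAt x).source := by
    have := (hπ.localInverseAt x).map_target hy
    rwa [hπ.localInverseAt_symm] at this
  have hsy : s (π y) = y := by
    have := (hπ.localInverseAt x).right_inv hy
    rwa [hπ.localInverseAt_symm] at this
  have hc : ContinuousAt s (π y) := (hπ.localInverseAt x).continuousAt hπy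
  have hsπ : ∀ᶠ z in 𝓝 (π y), π (s z) = z := by
    filter_upwards [(hπ.localInverseAt x).open_source.mem_nhds hπy] with z hz
    exact hπ.apply_localInverseAt_of_mem hz
  have h2 := loc_eq hπ u hc hsπ
  rw [hsy] at h2
  exact h2.symm

theorem dAt_eq_near (u : X → ℝ) (x : X) : ∀ᶠ y in 𝓝 x, dAt hπ u y = fderiv ℝ (loc hπ u x) (π y) := by
  filter_upwards [loc_move hπ u x] with y hy
  rw [dAt, hy.fderiv_eq]

theorem continuous_dAt {u : X → ℝ} (hu : SmoothC hπ 1 u) : Continuous (dAt hπ u) := by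
  rw [continuous_iff_continuousAt]
  intro x
  have h1 : ContinuousAt (fun y => fderiv ℝ (loc hπ u x) (π y)) x := by
    have h2 : ContinuousAt (fderiv ℝ (loc hπ u x)) (π x) := (hu x).continuousAt_fderiv (by simp)
    exact h2.comp hπ.continuous.continuousAt
  exact h1.congr ((dAt_eq_near hπ u x).mono fun y hy => hy.symm)

theorem continuous_of_smooth {u : X → ℝ} (hu : SmoothC hπ 1 u) : Continuous u := by
  rw [continuous_iff_continuousAt]
  intro x
  have h1 : ContinuousAt (fun y => loc hπ u x (π y)) x :=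
    (hu x).continuousAt.comp hπ.continuous.continuousAt
  refine h1.congr ?_
  filter_upwards [loc_move hπ u x] with y hy
  have := hy.self_of_nhds
  rw [← this, loc, hπ.localInverseAt_apply_self]

theorem loc_differentiableAt {u : X → ℝ} (hu : SmoothC hπ 1 u) (x : X) :
    DifferentiableAt ℝ (loc hπ u x) (π x) := (hu x).differentiableAt (by simp)

theorem dAt_add {u v : X → ℝ} (hu : SmoothC hπ 1 u) (hv : SmoothC hπ 1 v) (x : X) :
    dAt hπ (u + v) x = dAt hπ u x + dAt hπ v x := by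
  have : loc hπ (u + v) x = loc hπ u x + loc hπ v x := rfl
  rw [dAt, this, fderiv_add (loc_differentiableAt hπ hu x) (loc_differentiableAt hπ hv x)]
  rfl

theorem dAt_smul {u : X → ℝ} (hu : SmoothC hπ 1 u) (c : ℝ) (x : X) :
    dAt hπ (c • u) x = c • dAt hπ u x := by
  have : loc hπ (c • u) x = c • loc hπ u x := rfl
  rw [dAt, this, fderiv_const_smul (loc_differentiableAt hπ hu x)]
  rfl

theorem SmoothC.add {n : WithTop ℕ∞} {u v : X → ℝ} (hu : SmoothC hπ n u) (hv : SmoothC hπ n v) :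
    SmoothC hπ n (u + v) := fun x => (hu x).add (hv x)

theorem SmoothC.smul {n : WithTop ℕ∞} {u : X → ℝ} (hu : SmoothC hπ n u) (c : ℝ) :
    SmoothC hπ n (c • u) := fun x => (hu x).const_smul c

/-- the test functions: `C^1` functions which vanish outside `K` -/
def test (K : Set X) : Submodule ℝ (X → ℝ) where
  carrier := {u | SmoothC hπ 1 u ∧ ∀ x, x ∉ K → u x = 0}
  add_mem' := by
    rintro u v ⟨a, b⟩ ⟨c, d⟩
    exact ⟨SmoothC.add hπ a c, fun x hx => by simp [b x hx, d x hx]⟩
  zero_mem' := ⟨fun x => contDiffAt_const, fun x _ => rfl⟩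
  smul_mem' := by
    rintro r u ⟨a, b⟩
    exact ⟨SmoothC.smul hπ a r, fun x hx => by simp [b x hx]⟩

end basics

end Pool.Agent.KS6_69.DM
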