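import Mathlib

open Set

namespace Pool.Agent.KS6_69.DM

variable {W : Type*} [AddCommGroup W] [Module ℝ W]

/-- abstract min-max values -/
noncomputable def mm (D B : W → ℝ) (k : ℕ) : ℝ :=
  sInf {s : ℝ | ∃ w : Fin (k + 1) → W, LinearIndependent ℝ w ∧
    ∀ c : Fin (k + 1) → ℝ, D (∑ i, c i • w i) ≤ s * B (∑ i, c i • w i)}

theorem mm_bddBelow (D B : W → ℝ) (hD : ∀ w, 0 ≤ D w) (hB : ∀ w, w ≠ 0 → 0 < B w) (k : ℕ) :
    ∀ s ∈ {s : ℝ | ∃ w : Fin (k + 1) → W, LinearIndependent ℝ w ∧
    ∀ c : Fin (k + 1) → ℝ, D (∑ i, c i • w i) ≤ s * B (∑ i, c i • w i)}, 0 ≤ s := by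
  rintro s ⟨w, hw, h⟩
  have h0 : w 0 ≠ 0 := hw.ne_zero 0
  have h1 := h (Pi.single 0 1)
  have h2 : ∑ i, (Pi.single 0 1 : Fin (k + 1) → ℝ) i • w i = w 0 := by
    rw [Finset.sum_eq_single 0]
    · simp
    · intro b _ hb
      simp [Pi.single_eq_of_ne hb]
    · simp
  rw [h2] at h1
  have h3 := hB _ h0
  have h4 := hD (w 0)
  by_contra hs
  push Not at hs
  nlinarith

variable (D B : LinearMap.BilinForm ℝ W)

theorem sum_quad {M : ℕ} (f : Fin M → W) (hf : ∀ i j, i ≠ j → D (f i) (f j) = 0)
    (a : ℝ) (ha : ∀ i, D (f i) (f i) = a) (c : Fin M → ℝ) :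
    D (∑ i, c i • f i) (∑ i, c i • f i) = (∑ i, c i ^ 2) * a := by
  simp only [map_sum, map_smul, LinearMap.sum_apply, LinearMap.smul_apply, smul_eq_mul]
  rw [Finset.sum_mul]
  refine Finset.sum_congr rfl fun i _ => ?_
  rw [Finset.sum_eq_single i]
  · rw [ha]; ring
  · intro j _ hj
    rw [hf j i hj]; ring
  · simp

theorem mm_eq (hB : ∀ w, w ≠ 0 → 0 < B w w) (hD : ∀ w, 0 ≤ D w w)
    (P : W →ₗ[ℝ] W) (hPP : ∀ w, P (P w) = P w)
    (hDP : ∀ u v, D (P u) v = D u (P v)) (hBP : ∀ u v, B (P u) v = B u (P v))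
    (ℓ : W →ₗ[ℝ] ℝ) (C : ℝ)
    (hP1 : ∀ u, P u = u → ℓ u = 0 → C * B u u ≤ D u u)
    (hT : ∃ w, P w = 0 ∧ w ≠ 0 ∧ D w w ≤ C * B w w)
    (M : ℕ)
    (hS : ∀ w, P w = 0 → w ≠ 0 → ∃ (f : Fin M → W) (a b : ℝ),
      (∀ i j, i ≠ j → D (f i) (f j) = 0) ∧ (∀ i j, i ≠ j → B (f i) (f j) = 0) ∧
      (∀ i, D (f i) (f i) = a) ∧ (∀ i, B (f i) (f i) = b) ∧ 0 < b ∧
      a / b ≤ D w w / B w w) :
    ∃ Λ : ℝ, (∀ c, (∀ w, c * B w w ≤ D w w) → c ≤ Λ) ∧
      ∀ k : ℕ, 1 ≤ k → k < M → mm (fun w => D w w) (fun w => B w w) k = Λ := by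
  set R : Set ℝ := {r | ∃ w, P w = 0 ∧ w ≠ 0 ∧ r = D w w / B w w} with hR
  have hRne : R.Nonempty := by
    obtain ⟨w, h1, h2, -⟩ := hT
    exact ⟨_, w, h1, h2, rfl⟩
  have hRb : BddBelow R := by
    refine ⟨0, ?_⟩
    rintro r ⟨w, h1, h2, rfl⟩
    exact div_nonneg (hD w) (hB w h2).le
  set Λ := sInf R with hΛ
  have hΛC : Λ ≤ C := by
    obtain ⟨w, h1, h2, h3⟩ := hT
    refine (csInf_le hRb ⟨w, h1, h2, rfl⟩).trans ?_
    rw [div_le_iff₀ (hB w h2)]
    exact h3
  have hΛw : ∀ w, P w = 0 → Λ * B w w ≤ D w w := by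
    intro w hw
    by_cases h0 : w = 0
    · subst h0; simp
    · have := csInf_le hRb ⟨w, hw, h0, rfl⟩
      rwa [le_div_iff₀ (hB w h0)] at this
  -- splitting
  have split : ∀ (E : LinearMap.BilinForm ℝ W), (∀ u v, E (P u) v = E u (P v)) → ∀ u,
      E u u = E (P u) (P u) + E (u - P u) (u - P u) := by
    intro E hE u
    have h1 : E (P u) (u - P u) = 0 := by
      rw [hE, map_sub, hPP, sub_self]; simp
    have h2 : E (u - P u) (P u) = 0 := by
      rw [← hE, map_sub, hPP, sub_self]; simp
    have h3 : u = P u + (u - P u) := by abel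
    calc E u u = E (P u + (u - P u)) (P u + (u - P u)) := by rw [← h3]
      _ = _ := by
        have e1 : E (P u + (u - P u)) = E (P u) + E (u - P u) := map_add _ _ _
        rw [e1, LinearMap.add_apply]
        have e2 : E (P u) (P u + (u - P u)) = E (P u) (P u) + E (P u) (u - P u) := map_add _ _ _
        have e3 : E (u - P u) (P u + (u - P u)) = E (u - P u) (P u) + E (u - P u) (u - P u) :=
          map_add _ _ _
        rw [e2, e3, h1, h2]; ring
  refine ⟨Λ, ?_, fun k hk1 hkM => ?_⟩
  · intro c hc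
    refine le_csInf hRne ?_
    rintro r ⟨w, h1, h2, rfl⟩
    rw [le_div_iff₀ (hB w h2)]
    exact hc w
  apply le_antisymm
  · refine le_of_forall_pos_le_add fun η hη => ?_
    obtain ⟨r, ⟨w, h1, h2, rfl⟩, hr⟩ := exists_lt_of_csInf_lt hRne (show Λ < Λ + η by linarith)
    obtain ⟨f, a, b, f1, f2, f3, f4, hb, hab⟩ := hS w h1 h2
    have hinj : Function.Injective (fun i : Fin (k + 1) => (⟨i.1, by omega⟩ : Fin M)) := by
      intro i j hij
      simp only [Fin.mk.injEq] at hij
      exact Fin.ext hij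
    set g : Fin (k + 1) → W := fun i => f ⟨i.1, by omega⟩ with hg
    have g1 : ∀ i j, i ≠ j → D (g i) (g j) = 0 := fun i j hij => f1 _ _ (fun h => hij (hinj h))
    have g2 : ∀ i j, i ≠ j → B (g i) (g j) = 0 := fun i j hij => f2 _ _ (fun h => hij (hinj h))
    have gD := sum_quad D g g1 a (fun i => f3 _)
    have gB := sum_quad B g g2 b (fun i => f4 _)
    refine csInf_le ⟨0, mm_bddBelow _ _ hD hB k⟩ ⟨g, ?_, ?_⟩
    · rw [Fintype.linearIndependent_iff]
      intro c hc
      have h3 := gB c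
      rw [hc] at h3
      simp only [map_zero] at h3
      have h4 : ∑ i, c i ^ 2 = 0 := by
        rcases mul_eq_zero.1 h3.symm with h | h
        · exact h
        · exact absurd h hb.ne'
      intro i
      have h5 := (Finset.sum_eq_zero_iff_of_nonneg (fun i _ => sq_nonneg (c i))).1 h4 i
        (Finset.mem_univ i)
      exact pow_eq_zero_iff (two_ne_zero) |>.1 h5
    · intro c
      show D _ _ ≤ (Λ + η) * B _ _
      rw [gD, gB]
      have h5 : a ≤ (Λ + η) * b := by
        have := hab.trans hr.le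
        rwa [div_le_iff₀ hb] at this
      have h6 : 0 ≤ ∑ i, c i ^ 2 := Finset.sum_nonneg fun i _ => sq_nonneg _
      nlinarith
  · refine le_csInf ?_ ?_
    · obtain ⟨w, h1, h2, -⟩ := hT
      obtain ⟨f, a, b, f1, f2, f3, f4, hb, hab⟩ := hS w h1 h2
      have hinj : Function.Injective (fun i : Fin (k + 1) => (⟨i.1, by omega⟩ : Fin M)) := by
        intro i j hij
        simp only [Fin.mk.injEq] at hij
        exact Fin.ext hij
      set g : Fin (k + 1) → W := fun i => f ⟨i.1, by omega⟩ with hg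
      have g1 : ∀ i j, i ≠ j → D (g i) (g j) = 0 := fun i j hij => f1 _ _ (fun h => hij (hinj h))
      have g2 : ∀ i j, i ≠ j → B (g i) (g j) = 0 := fun i j hij => f2 _ _ (fun h => hij (hinj h))
      have gD := sum_quad D g g1 a (fun i => f3 _)
      have gB := sum_quad B g g2 b (fun i => f4 _)
      refine ⟨a / b, g, ?_, ?_⟩
      · rw [Fintype.linearIndependent_iff]
        intro c hc
        have h3 := gB c
        rw [hc] at h3
        simp only [map_zero] at h3
        have h4 : ∑ i, c i ^ 2 = 0 := by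
          rcases mul_eq_zero.1 h3.symm with h | h
          · exact h
          · exact absurd h hb.ne'
        intro i
        have h5 := (Finset.sum_eq_zero_iff_of_nonneg (fun i _ => sq_nonneg (c i))).1 h4 i
          (Finset.mem_univ i)
        exact pow_eq_zero_iff (two_ne_zero) |>.1 h5
      · intro c
        show D _ _ ≤ (a / b) * B _ _
        rw [gD, gB]
        apply le_of_eq
        field_simp
    · rintro s ⟨w, hw, h⟩
      -- choose a combination of the first two with zero functional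
      have h10 : (⟨1, by omega⟩ : Fin (k + 1)) ≠ 0 := by
        intro h; simp [Fin.ext_iff] at h
      obtain ⟨c, hc, hℓ⟩ : ∃ c : Fin (k + 1) → ℝ, c ≠ 0 ∧ ℓ (P (∑ i, c i • w i)) = 0 := by
        by_cases h0 : ℓ (P (w 0)) = 0
        · refine ⟨Pi.single 0 1, ?_, ?_⟩
          · intro h
            have := congrFun h 0
            simp at this
          · have h2 : ∑ i, (Pi.single 0 1 : Fin (k + 1) → ℝ) i • w i = w 0 := by
              rw [Finset.sum_eq_single 0]
              · simp
              · intro b _ hb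
                simp [Pi.single_eq_of_ne hb]
              · simp
            rw [h2, h0]
        · refine ⟨fun i => if i = 0 then ℓ (P (w ⟨1, by omega⟩)) else
            if i = ⟨1, by omega⟩ then - ℓ (P (w 0)) else 0, ?_, ?_⟩
          · intro h
            have := congrFun h ⟨1, by omega⟩
            simp only [h10, if_false, if_true, Pi.zero_apply, neg_eq_zero] at this
            exact h0 this
          · simp only [map_sum, map_smul, smul_eq_mul]
            rw [Finset.sum_eq_add (0 : Fin (k + 1)) ⟨1, by omega⟩ h10.symm]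
            · simp only [h10, if_false, if_true]
              ring
            · rintro i - ⟨hi0, hi1⟩
              simp only [hi0, hi1, if_false, zero_mul]
            · simp
            · simp
      set u := ∑ i, c i • w i with hu
      have hu0 : u ≠ 0 := by
        intro h0
        rw [Fintype.linearIndependent_iff] at hw
        exact hc (funext (hw c (by rw [← hu]; exact h0)))
      have hDu := split D hDP u
      have hBu := split B hBP u
      have k1 := hP1 (P u) (hPP u) hℓ
      have k2 := hΛw (u - P u) (by rw [map_sub, hPP, sub_self])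
      have k3 : 0 ≤ B (P u) (P u) := by
        by_cases h0 : P u = 0
        · rw [h0]; simp
        · exact (hB _ h0).le
      have k4 := h c
      rw [← hu] at k4
      have k5 := hB u hu0
      have k6 : Λ * B u u ≤ D u u := by
        rw [hDu, hBu, mul_add]
        have : Λ * B (P u) (P u) ≤ C * B (P u) (P u) := mul_le_mul_of_nonneg_right hΛC k3
        linarith
      have k7 : Λ * B u u ≤ s * B u u := k6.trans k4
      exact le_of_mul_le_mul_right k7 k5

end Pool.Agent.KS6_69.DM
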