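import Pool.Agent.KS6_69.DM.Pos

open Set Filter Topology MeasureTheory Complex
open scoped ContDiff

namespace Pool.Agent.KS6_69.DM

/-- the scale -/
noncomputable def al (κ : ℝ) : ℝ := 1 / (200 * (|κ| + 1))

theorem al_pos (κ : ℝ) : 0 < al κ := by unfold al; positivity

theorem al_mul (κ : ℝ) : |κ * al κ| ≤ 1 / 200 := by
  rw [abs_mul, abs_of_pos (al_pos κ)]
  unfold al
  rw [mul_one_div, div_le_div_iff₀ (by positivity) (by norm_num)]
  have := abs_nonneg κ
  linarith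

/-- the squared norm, cut off -/
noncomputable def gg (z : ℂ) : ℝ := ‖z‖ ^ 2 * Real.smoothTransition (4 - ‖z‖ ^ 2)

theorem gg_eq {z : ℂ} (h : ‖z‖ ^ 2 ≤ 3) : gg z = ‖z‖ ^ 2 := by
  unfold gg
  rw [Real.smoothTransition.one_of_one_le (by linarith), mul_one]

theorem gg_nonneg (z : ℂ) : 0 ≤ gg z :=
  mul_nonneg (sq_nonneg _) (Real.smoothTransition.nonneg _)

theorem gg_le (z : ℂ) : gg z ≤ 4 := by
  unfold gg
  by_cases h : ‖z‖ ^ 2 ≤ 4
  · calc ‖z‖ ^ 2 * Real.smoothTransition (4 - ‖z‖ ^ 2) ≤ ‖z‖ ^ 2 * 1 :=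
        mul_le_mul_of_nonneg_left (Real.smoothTransition.le_one _) (sq_nonneg _)
      _ ≤ 4 := by linarith
  · rw [Real.smoothTransition.zero_of_nonpos (by push Not at h; linarith)]
    norm_num

theorem contDiff_gg : ContDiff ℝ ∞ gg := by
  unfold gg
  exact (contDiff_norm_sq ℝ).mul
    (Real.smoothTransition.contDiff.comp (contDiff_const.sub (contDiff_norm_sq ℝ)))

theorem gg_rot {a : ℂ} (z : ℂ) (ha : ‖a‖ = 1) : gg (a * z) = gg z := by
  unfold gg; rw [norm_mul, ha, one_mul]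

theorem den_bd (κ : ℝ) (z : ℂ) : 49 / 50 ≤ 1 + κ * al κ * gg z ∧ 1 + κ * al κ * gg z ≤ 51 / 50 := by
  have h1 : |κ * al κ * gg z| ≤ 1 / 50 := by
    rw [abs_mul, abs_of_nonneg (gg_nonneg z)]
    calc |κ * al κ| * gg z ≤ 1 / 200 * 4 :=
          mul_le_mul (al_mul κ) (gg_le z) (gg_nonneg z) (by norm_num)
      _ = 1 / 50 := by norm_num
  rw [abs_le] at h1
  constructor <;> linarith [h1.1, h1.2]

/-- the conformal factor of curvature `κ` -/
noncomputable def rk (κ : ℝ) (z : ℂ) : ℝ := 4 * al κ / (1 + κ * al κ * gg z) ^ 2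

theorem contDiff_rk (κ : ℝ) : ContDiff ℝ ∞ (rk κ) := by
  unfold rk
  refine contDiff_const.div ((contDiff_const.add (contDiff_const.mul contDiff_gg)).pow 2) ?_
  intro z
  have := (den_bd κ z).1
  positivity

theorem rk_bd (κ : ℝ) (z : ℂ) : 4 * al κ * (19 / 20) ≤ rk κ z ∧ rk κ z ≤ 4 * al κ * (21 / 20) := by
  obtain ⟨h1, h2⟩ := den_bd κ z
  have ha := al_pos κ
  unfold rk
  set d := 1 + κ * al κ * gg z
  have hd : 0 < d ^ 2 := by positivity
  constructor
  · rw [le_div_iff₀ hd]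
    have : d ^ 2 ≤ (51 / 50) ^ 2 := pow_le_pow_left₀ (by linarith) h2 2
    nlinarith
  · rw [div_le_iff₀ hd]
    have : (49 / 50) ^ 2 ≤ d ^ 2 := pow_le_pow_left₀ (by norm_num) h1 2
    nlinarith

theorem rk_pos (κ : ℝ) (z : ℂ) : 0 < rk κ z := by
  have := (rk_bd κ z).1
  have ha := al_pos κ
  nlinarith

theorem good_rk (κ : ℝ) : GoodW (rk κ) where
  cont := (contDiff_rk κ).continuous
  pos := rk_pos κ
  rad := fun a z ha => by unfold rk; rw [gg_rot z ha]
  bdd := ⟨4 * al κ * (21 / 20), by have := al_pos κ; positivity, fun z => (rk_bd κ z).2⟩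
  near := ⟨4 * al κ, by have := al_pos κ; positivity, fun z _ => rk_bd κ z⟩

/-- second derivative of the logarithm of the conformal factor along a line -/
theorem dd_log {A B C c : ℝ} (hA : 0 < A) (hB : 0 < B) {u : ℝ → ℝ}
    (hu : u =ᶠ[𝓝 0] fun t => Real.log (A / (B + C * t + c * t ^ 2) ^ 2)) :
    deriv (deriv u) 0 = -2 * (2 * c * B - C ^ 2) / B ^ 2 := by
  have hpc : Continuous fun t : ℝ => B + C * t + c * t ^ 2 := by fun_prop
  have hpos : ∀ᶠ t : ℝ in 𝓝 0, 0 < B + C * t + c * t ^ 2 :=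
    hpc.continuousAt.eventually_const_lt (by simpa using hB)
  have hp : ∀ t : ℝ, HasDerivAt (fun t : ℝ => B + C * t + c * t ^ 2) (C + 2 * c * t) t := by
    intro t
    have e1 : HasDerivAt (fun t : ℝ => B + C * t) C t := by
      simpa using ((hasDerivAt_id t).const_mul C).const_add B
    have e2 : HasDerivAt (fun t : ℝ => c * t ^ 2) (2 * c * t) t :=
      ((hasDerivAt_pow 2 t).const_mul c).congr_deriv (by simp; ring)
    exact e1.add e2
  have hu2 : u =ᶠ[𝓝 0] fun t => Real.log A - 2 * Real.log (B + C * t + c * t ^ 2) := by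
    filter_upwards [hu, hpos] with t h1 h2
    rw [h1, Real.log_div hA.ne' (by positivity), Real.log_pow]
    norm_num
  have h3 : deriv u =ᶠ[𝓝 0] fun t => -(2 * ((C + 2 * c * t) / (B + C * t + c * t ^ 2))) := by
    refine hu2.deriv.trans ?_
    filter_upwards [hpos] with t ht
    have := (((hp t).log ht.ne').const_mul 2).const_sub (Real.log A)
    exact this.deriv
  rw [h3.deriv_eq]
  have e1 : HasDerivAt (fun t : ℝ => C + 2 * c * t) (2 * c) 0 := by
    simpa using ((hasDerivAt_id (0 : ℝ)).const_mul (2 * c)).const_add C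
  have e2 := ((e1.div (hp 0) (by simpa using hB.ne')).const_mul 2).fun_neg
  have e3 : deriv (fun t => -(2 * ((C + 2 * c * t) / (B + C * t + c * t ^ 2)))) 0 = _ := e2.deriv
  rw [e3]
  simp
  ring

/-- the curvature of the conformal factor -/
theorem curv_rk (κ : ℝ) {z : ℂ} (hz : ‖z‖ ≤ 11 / 10) {u w : ℝ → ℝ}
    (hu : u =ᶠ[𝓝 0] fun t : ℝ => Real.log (rk κ (z + t)))
    (hw : w =ᶠ[𝓝 0] fun t : ℝ => Real.log (rk κ (z + t * I))) :
    -(deriv (deriv u) 0 + deriv (deriv w) 0) / (2 * rk κ z) = κ := by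
  have hA : 0 < 4 * al κ := by have := al_pos κ; positivity
  have hz2 : ‖z‖ ^ 2 = z.re ^ 2 + z.im ^ 2 := by
    rw [Complex.sq_norm, normSq_apply]; ring
  have hz3 : ‖z‖ ^ 2 < 3 := by nlinarith [norm_nonneg z]
  set B := 1 + κ * al κ * ‖z‖ ^ 2 with hB
  have hg : gg z = ‖z‖ ^ 2 := gg_eq hz3.le
  have hB0 : 0 < B := by
    have := (den_bd κ z).1
    rw [hg] at this
    linarith
  have h1 : u =ᶠ[𝓝 0] fun t => Real.log (4 * al κ /
      (B + (2 * (κ * al κ) * z.re) * t + (κ * al κ) * t ^ 2) ^ 2) := by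
    have hc : Continuous fun t : ℝ => ‖z + t‖ ^ 2 := by fun_prop
    have h5 : ∀ᶠ t : ℝ in 𝓝 0, ‖z + t‖ ^ 2 < 3 :=
      hc.continuousAt.eventually_lt_const (by simpa using hz3)
    filter_upwards [hu, h5] with t e1 e2
    rw [e1, rk, gg_eq e2.le]
    congr 3
    rw [hB, hz2, Complex.sq_norm, normSq_apply]
    simp
    ring
  have h2 : w =ᶠ[𝓝 0] fun t => Real.log (4 * al κ /
      (B + (2 * (κ * al κ) * z.im) * t + (κ * al κ) * t ^ 2) ^ 2) := by
    have hc : Continuous fun t : ℝ => ‖z + t * I‖ ^ 2 := by fun_prop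
    have h5 : ∀ᶠ t : ℝ in 𝓝 0, ‖z + t * I‖ ^ 2 < 3 :=
      hc.continuousAt.eventually_lt_const (by simpa using hz3)
    filter_upwards [hw, h5] with t e1 e2
    rw [e1, rk, gg_eq e2.le]
    congr 3
    rw [hB, hz2, Complex.sq_norm, normSq_apply]
    simp
    ring
  rw [dd_log hA hB0 h1, dd_log hA hB0 h2, rk, hg, ← hB]
  have hal := (al_pos κ).ne'
  have hBe : κ * al κ * z.re ^ 2 + κ * al κ * z.im ^ 2 = B - 1 := by
    rw [hB, hz2]; ring
  have key : -(-2 * (2 * (κ * al κ) * B - (2 * (κ * al κ) * z.re) ^ 2) / B ^ 2 +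
      -2 * (2 * (κ * al κ) * B - (2 * (κ * al κ) * z.im) ^ 2) / B ^ 2) =
      8 * (κ * al κ) / B ^ 2 := by
    rw [← add_div, ← neg_div]
    congr 1
    linear_combination (-8 * (κ * al κ)) * hBe
  rw [key]
  field_simp
  ring

end Pool.Agent.KS6_69.DM
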