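import Pool.Agent.KS6_69.DM.Sq

open Set Filter Topology MeasureTheory
open scoped ContDiff Interval

namespace Pool.Agent.KS6_69.DM

theorem hasDerivAt_pos2 (u : ℝ) : HasDerivAt (fun u : ℝ => (max 0 u) ^ 2) (2 * max 0 u) u := by
  rcases lt_trichotomy u 0 with h | h | h
  · have e : (fun u : ℝ => (max 0 u) ^ 2) =ᶠ[𝓝 u] fun _ => 0 := by
      filter_upwards [Iio_mem_nhds h] with w hw
      rw [max_eq_left (le_of_lt hw)]; simp
    rw [max_eq_left h.le, mul_zero]
    exact (hasDerivAt_const u (0 : ℝ)).congr_of_eventuallyEq e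
  · subst h
    rw [max_self, mul_zero]
    rw [hasDerivAt_iff_isLittleO_nhds_zero]
    have h1 : (fun h : ℝ => (max 0 (0 + h)) ^ 2 - (max 0 0) ^ 2 - h • (0 : ℝ)) =O[𝓝 0]
        fun h : ℝ => h ^ 2 := by
      refine Asymptotics.isBigO_of_le _ fun h => ?_
      simp only [zero_add, max_self, smul_eq_mul, mul_zero, sub_zero]
      norm_num
      rcases le_total h 0 with h | h
      · rw [max_eq_left h]; simp; positivity
      · rw [max_eq_right h]
    refine h1.trans_isLittleO ?_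
    have := Asymptotics.isLittleO_pow_id (𝕜 := ℝ) (n := 2) (by norm_num)
    exact this
  · have e : (fun u : ℝ => (max 0 u) ^ 2) =ᶠ[𝓝 u] fun u => u ^ 2 := by
      filter_upwards [Ioi_mem_nhds h] with w hw
      rw [max_eq_right (le_of_lt hw)]
    rw [max_eq_right h.le]
    have := (hasDerivAt_pow 2 u).congr_of_eventuallyEq e
    simpa using this

/-- the plane test function -/
noncomputable def phi (z : ℂ) : ℝ := (max 0 (1 - 100 / 81 * ‖z‖ ^ 2)) ^ 2

theorem contDiff_pos2 : ContDiff ℝ 1 (fun u : ℝ => (max 0 u) ^ 2) := by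
  rw [contDiff_one_iff_deriv]
  refine ⟨fun t => (hasDerivAt_pos2 t).differentiableAt, ?_⟩
  have : deriv (fun u : ℝ => (max 0 u) ^ 2) = fun u => 2 * max 0 u :=
    funext fun t => (hasDerivAt_pos2 t).deriv
  rw [this]; fun_prop

theorem contDiff_phi : ContDiff ℝ 1 phi := by
  unfold phi
  exact contDiff_pos2.comp (contDiff_const.sub (contDiff_const.mul (contDiff_norm_sq ℝ)))

theorem phi_zero {z : ℂ} (h : 9 / 10 ≤ ‖z‖) : phi z = 0 := by
  unfold phi
  rw [max_eq_left (by nlinarith)]; simp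

theorem phi_supp {z : ℂ} (h : 2 < ‖z‖) : phi z = 0 := phi_zero (by linarith)

theorem grad_phi (z : ℂ) : fderiv ℝ phi z 1 ^ 2 + fderiv ℝ phi z Complex.I ^ 2 =
    (2 * max 0 (1 - 100 / 81 * ‖z‖ ^ 2) * (200 / 81) * ‖z‖) ^ 2 := by
  have h1 := (hasStrictFDerivAt_norm_sq z).hasFDerivAt
  have h2 := (h1.const_mul (100 / 81 : ℝ)).const_sub 1
  have h3 := (hasDerivAt_pos2 _).comp_hasFDerivAt z h2
  have h5 : fderiv ℝ phi z = _ := h3.fderiv
  rw [h5]
  have h4 : ‖z‖ ^ 2 = z.re ^ 2 + z.im ^ 2 := by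
    rw [Complex.sq_norm, Complex.normSq_apply]; ring
  rw [mul_pow _ ‖z‖, h4]
  simp only [_root_.smul_apply, _root_.neg_apply, smul_eq_mul, nsmul_eq_mul,
    innerSL_apply_apply, Complex.inner]
  simp
  ring

theorem ioi_eq {g p : ℝ → ℝ} (h0 : ∀ y : ℝ, 9 / 10 < y → g y = 0)
    (hp : ∀ y : ℝ, 0 < y → y ≤ 9 / 10 → g y = p y) :
    ∫ y in Ioi (0 : ℝ), g y = ∫ y in (0 : ℝ)..(9 / 10), p y := by
  rw [intervalIntegral.integral_of_le (by norm_num)]
  have e : ∫ y in Ioc (0 : ℝ) (9 / 10), p y = ∫ y in Ioc (0 : ℝ) (9 / 10), g y :=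
    setIntegral_congr_fun measurableSet_Ioc fun y hy => (hp y hy.1 hy.2).symm
  rw [e]
  refine (setIntegral_eq_of_subset_of_forall_sdiff_eq_zero measurableSet_Ioi Ioc_subset_Ioi_self
    fun y hy => h0 y ?_)
  by_contra hcon
  push Not at hcon
  exact hy.2 ⟨hy.1, hcon⟩

theorem radial (g : ℝ → ℝ) : ∫ z : ℂ, g ‖z‖ = 2 * Real.pi * ∫ y in Ioi (0 : ℝ), y * g y := by
  rw [integral_fun_norm_addHaar (volume : Measure ℂ) g, Complex.finrank_real_complex,
    Measure.real, Complex.volume_ball]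
  simp
  ring

theorem energy_phi : ∫ z, (fderiv ℝ phi z 1 ^ 2 + fderiv ℝ phi z Complex.I ^ 2) =
    4 / 3 * Real.pi := by
  simp only [grad_phi]
  rw [radial fun y => (2 * max 0 (1 - 100 / 81 * y ^ 2) * (200 / 81) * y) ^ 2,
    ioi_eq (p := fun y => (400 / 81) ^ 2 * y ^ 3 - 2 * (400 / 81) ^ 2 * (100 / 81) * y ^ 5 +
      (400 / 81) ^ 2 * (100 / 81) ^ 2 * y ^ 7)]
  · rw [intervalIntegral.integral_add, intervalIntegral.integral_sub,
      intervalIntegral.integral_const_mul, intervalIntegral.integral_const_mul,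
      intervalIntegral.integral_const_mul, integral_pow, integral_pow, integral_pow]
    · norm_num; ring
    all_goals exact Continuous.intervalIntegrable (by fun_prop) _ _
  · intro y hy
    rw [max_eq_left (by nlinarith)]; ring
  · intro y hy0 hy
    rw [max_eq_right (by nlinarith)]; ring

theorem mass_phi : ∫ z, phi z * phi z = 81 / 500 * Real.pi := by
  have e : ∀ z, phi z * phi z = (fun y : ℝ => (max 0 (1 - 100 / 81 * y ^ 2)) ^ 4) ‖z‖ := fun z => by
    unfold phi; ring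
  simp only [e]
  rw [radial fun y => (max 0 (1 - 100 / 81 * y ^ 2)) ^ 4,
    ioi_eq (p := fun y => y - 4 * (100 / 81) * y ^ 3 + 6 * (100 / 81) ^ 2 * y ^ 5 -
      4 * (100 / 81) ^ 3 * y ^ 7 + (100 / 81) ^ 4 * y ^ 9)]
  · rw [intervalIntegral.integral_add, intervalIntegral.integral_sub,
      intervalIntegral.integral_add, intervalIntegral.integral_sub, integral_id,
      intervalIntegral.integral_const_mul, intervalIntegral.integral_const_mul,
      intervalIntegral.integral_const_mul, intervalIntegral.integral_const_mul,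
      integral_pow, integral_pow, integral_pow, integral_pow]
    · norm_num; ring
    all_goals exact Continuous.intervalIntegrable (by fun_prop) _ _
  · intro y hy
    rw [max_eq_left (by nlinarith)]; ring
  · intro y hy0 hy
    rw [max_eq_right (by nlinarith)]; ring

/-- the conformal factors we consider: continuous, positive, bounded, radial, and almost constant
near the domain -/
structure GoodW (ρ : ℂ → ℝ) : Prop where
  cont : Continuous ρ
  pos : ∀ z, 0 < ρ z
  rad : ∀ a z : ℂ, ‖a‖ = 1 → ρ (a * z) = ρ z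
  bdd : ∃ c₁ : ℝ, 0 < c₁ ∧ ∀ z, ρ z ≤ c₁
  near : ∃ c₀ : ℝ, 0 < c₀ ∧ ∀ z, ‖z‖ ≤ 11 / 10 → c₀ * (19 / 20) ≤ ρ z ∧ ρ z ≤ c₀ * (21 / 20)

theorem phi_test {ρ : ℂ → ℝ} (hρ : GoodW ρ) {c₀ : ℝ} (hc0 : 0 < c₀)
    (hn : ∀ z, ‖z‖ ≤ 11 / 10 → c₀ * (19 / 20) ≤ ρ z ∧ ρ z ≤ c₀ * (21 / 20)) :
    ∫ z, (fderiv ℝ phi z 1 ^ 2 + fderiv ℝ phi z Complex.I ^ 2) ≤
    (9 / c₀) * ∫ z, ρ z * (phi z * phi z) := by
  have hpc := contDiff_phi.continuous
  have h1 : ∫ z, c₀ * (19 / 20) * (phi z * phi z) ≤ ∫ z, ρ z * (phi z * phi z) := by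
    refine integral_mono ?_ ?_ fun z => ?_
    · exact integrable_of_supp (continuous_const.mul (hpc.mul hpc)) fun z hz => by
        rw [phi_supp hz]; simp
    · exact integrable_of_supp (hρ.cont.mul (hpc.mul hpc)) fun z hz => by
        rw [phi_supp hz]; simp
    · show c₀ * (19 / 20) * (phi z * phi z) ≤ ρ z * (phi z * phi z)
      by_cases hz : ‖z‖ ≤ 11 / 10
      · exact mul_le_mul_of_nonneg_right (hn z hz).1 (mul_self_nonneg _)
      · rw [phi_zero (by push Not at hz; linarith)]; simp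
  rw [integral_const_mul, mass_phi] at h1
  rw [energy_phi]
  have hpi := Real.pi_pos
  calc 4 / 3 * Real.pi ≤ (9 / c₀) * (c₀ * (19 / 20) * (81 / 500 * Real.pi)) := by
        have : (9 / c₀) * (c₀ * (19 / 20) * (81 / 500 * Real.pi)) =
            9 * (19 / 20) * (81 / 500) * Real.pi := by field_simp
        rw [this]
        nlinarith
    _ ≤ _ := mul_le_mul_of_nonneg_left h1 (by positivity)

theorem int_all' {φ : ℂ → ℝ} (hφ : Continuous φ) (h0 : ∀ z, 11 / 10 < ‖z‖ → φ z = 0) :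
    ∫ z, φ z = I2 (9 / 8) φ := by
  rw [← int_Qs (by norm_num) hφ]
  symm
  apply setIntegral_eq_integral_of_forall_compl_eq_zero
  intro z hz
  apply h0
  by_contra hcon
  push Not at hcon
  apply hz
  have h1 := (Complex.abs_re_le_norm z).trans hcon
  have h2 := (Complex.abs_im_le_norm z).trans hcon
  rw [abs_le] at h1 h2
  refine ⟨⟨by linarith [h1.1], by linarith [h1.2]⟩, ⟨by linarith [h2.1], by linarith [h2.2]⟩⟩

/-- the key inequality -/
theorem P1_plane {f : ℂ → ℝ} (hf : ContDiff ℝ 1 f) (hs : ∀ z, 11 / 10 < ‖z‖ → f z = 0)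
    {ρ : ℂ → ℝ} (hρ : GoodW ρ) {c₀ : ℝ} (hc0 : 0 < c₀)
    (hn : ∀ z, ‖z‖ ≤ 11 / 10 → c₀ * (19 / 20) ≤ ρ z ∧ ρ z ≤ c₀ * (21 / 20))
    (h0 : ∫ z in Qs (9 / 8), f z * (cs (9 / 8) z.re * cs (9 / 8) z.im) = 0) :
    (9 / c₀) * ∫ z, ρ z * (f z * f z) ≤
      ∫ z, (fderiv ℝ f z 1 ^ 2 + fderiv ℝ f z Complex.I ^ 2) := by
  have hfc : Continuous f := hf.continuous
  have hX := cont_fd hf 1
  have hY := cont_fd hf Complex.I
  have hf2 : Continuous fun z => f z ^ 2 := hfc.pow 2
  have hG : Continuous fun z => fderiv ℝ f z 1 ^ 2 + fderiv ℝ f z Complex.I ^ 2 :=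
    (hX.pow 2).add (hY.pow 2)
  have hGs : ∀ z, 11 / 10 < ‖z‖ → fderiv ℝ f z 1 ^ 2 + fderiv ℝ f z Complex.I ^ 2 = 0 := by
    intro z hz
    have h1 : f =ᶠ[𝓝 z] fun _ => 0 := by
      have : ∀ᶠ w in 𝓝 z, 11 / 10 < ‖w‖ := continuous_norm.continuousAt.eventually_const_lt hz
      filter_upwards [this] with w hw
      exact hs w hw
    rw [h1.fderiv_eq, fderiv_fun_const]
    simp
  have hf2s : ∀ z, 11 / 10 < ‖z‖ → f z ^ 2 = 0 := fun z hz => by rw [hs z hz]; simp
  rw [int_all' hG hGs]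
  have hcc : Continuous fun z : ℂ => f z * (cs (9 / 8) z.re * cs (9 / 8) z.im) :=
    hfc.mul (((cont_cs _).comp Complex.continuous_re).mul ((cont_cs _).comp Complex.continuous_im))
  rw [int_Qs (by norm_num) hcc] at h0
  have hpi3 := Real.pi_gt_d2
  have hpi4 := Real.pi_lt_d2
  have a8 : |(9 / 8 : ℝ)| = 9 / 8 := by norm_num
  have key := square (h := 9 / 8) (k := 279 / 100) (k₀ := 279 / 200) (by norm_num) (by norm_num)
    (by linarith) (by
      apply pow_le_pow_left₀ (by positivity)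
      rw [div_le_iff₀ (by norm_num)]
      linarith) (by norm_num) (by linarith) hf
    (fun y => hs _ (by
      have := Complex.abs_re_le_norm (⟨-(9 / 8), y⟩ : ℂ)
      simp only [abs_neg] at this
      rw [a8] at this
      linarith))
    (fun y => hs _ (by
      have := Complex.abs_re_le_norm (⟨9 / 8, y⟩ : ℂ)
      simp only at this
      rw [a8] at this
      linarith))
    (fun y => hs _ (by
      have := Complex.abs_im_le_norm (⟨y, -(9 / 8)⟩ : ℂ)
      simp only [abs_neg] at this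
      rw [a8] at this
      linarith))
    (fun y => hs _ (by
      have := Complex.abs_im_le_norm (⟨y, 9 / 8⟩ : ℂ)
      simp only at this
      rw [a8] at this
      linarith)) h0
  refine le_trans ?_ key
  rw [← int_all' hf2 hf2s]
  have h1 : ∫ z, ρ z * (f z * f z) ≤ ∫ z, c₀ * (21 / 20) * f z ^ 2 := by
    refine integral_mono ?_ ?_ fun z => ?_
    · exact integrable_of_supp (hρ.cont.mul (hfc.mul hfc)) fun z hz => by
        rw [hs z (by linarith)]; simp
    · exact integrable_of_supp (continuous_const.mul hf2) fun z hz => by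
        rw [hs z (by linarith)]; simp
    · show ρ z * (f z * f z) ≤ c₀ * (21 / 20) * f z ^ 2
      by_cases hz : ‖z‖ ≤ 11 / 10
      · rw [← pow_two]
        exact mul_le_mul_of_nonneg_right (hn z hz).2 (sq_nonneg _)
      · rw [hs z (by push Not at hz; exact hz)]; simp
  rw [integral_const_mul] at h1
  have hM : 0 ≤ ∫ z, f z ^ 2 := integral_nonneg fun z => sq_nonneg _
  calc (9 / c₀) * ∫ z, ρ z * (f z * f z) ≤ (9 / c₀) * (c₀ * (21 / 20) * ∫ z, f z ^ 2) :=
        mul_le_mul_of_nonneg_left h1 (by positivity)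
    _ = 9 * (21 / 20) * ∫ z, f z ^ 2 := by field_simp
    _ ≤ _ := mul_le_mul_of_nonneg_right (by norm_num) hM

end Pool.Agent.KS6_69.DM
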