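import Mathlib

open Set Filter Topology MeasureTheory
open scoped ContDiff Interval

namespace Pool.Agent.KS6_69.DM

/-- swapping interval integrals -/
theorem swapII {a b c d : ℝ} (h1 : a ≤ b) (h2 : c ≤ d) {F : ℝ → ℝ → ℝ}
    (hF : Continuous (Function.uncurry F)) :
    ∫ x in a..b, ∫ y in c..d, F x y = ∫ y in c..d, ∫ x in a..b, F x y := by
  simp only [intervalIntegral.integral_of_le h1, intervalIntegral.integral_of_le h2]
  apply integral_integral_swap
  rw [Measure.prod_restrict]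
  have : IntegrableOn (Function.uncurry F) (Icc a b ×ˢ Icc c d) (volume.prod volume) :=
    hF.continuousOn.integrableOn_compact (isCompact_Icc.prod isCompact_Icc)
  exact this.mono_set (prod_mono Ioc_subset_Icc_self Ioc_subset_Icc_self)

theorem cont_mk : Continuous fun p : ℝ × ℝ => (⟨p.1, p.2⟩ : ℂ) :=
  Complex.equivRealProdCLM.symm.continuous

theorem cont_unc {φ : ℂ → ℝ} (hφ : Continuous φ) :
    Continuous (Function.uncurry fun x y : ℝ => φ ⟨x, y⟩) := hφ.comp cont_mk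

theorem cont_unc' {φ : ℂ → ℝ} (hφ : Continuous φ) :
    Continuous (Function.uncurry fun y x : ℝ => φ ⟨x, y⟩) :=
  (hφ.comp cont_mk).comp continuous_swap

theorem cont_x {φ : ℂ → ℝ} (hφ : Continuous φ) (y : ℝ) : Continuous fun x : ℝ => φ ⟨x, y⟩ :=
  (hφ.comp cont_mk).comp (continuous_id.prodMk continuous_const)

theorem cont_y {φ : ℂ → ℝ} (hφ : Continuous φ) (x : ℝ) : Continuous fun y : ℝ => φ ⟨x, y⟩ :=
  (hφ.comp cont_mk).comp (continuous_const.prodMk continuous_id)

theorem cont_inner {φ : ℂ → ℝ} (hφ : Continuous φ) (c d : ℝ) :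
    Continuous fun x : ℝ => ∫ y in c..d, φ ⟨x, y⟩ :=
  intervalIntegral.continuous_parametric_intervalIntegral_of_continuous' (cont_unc hφ) c d

theorem deriv_x {f : ℂ → ℝ} (hf : ContDiff ℝ 1 f) (x y : ℝ) :
    HasDerivAt (fun x : ℝ => f ⟨x, y⟩) (fderiv ℝ f ⟨x, y⟩ 1) x := by
  have h1 : HasDerivAt (fun x : ℝ => (⟨x, y⟩ : ℂ)) 1 x := by
    have h2 : (fun x : ℝ => (⟨x, y⟩ : ℂ)) = fun x : ℝ => (x : ℂ) + y * Complex.I := by
      funext t; exact Complex.mk_eq_add_mul_I t y
    rw [h2]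
    exact (Complex.ofRealCLM.hasDerivAt).add_const _
  exact ((hf.differentiable (by simp)) _).hasFDerivAt.comp_hasDerivAt x h1

theorem deriv_y {f : ℂ → ℝ} (hf : ContDiff ℝ 1 f) (x y : ℝ) :
    HasDerivAt (fun y : ℝ => f ⟨x, y⟩) (fderiv ℝ f ⟨x, y⟩ Complex.I) y := by
  have h1 : HasDerivAt (fun y : ℝ => (⟨x, y⟩ : ℂ)) Complex.I y := by
    have h2 : (fun y : ℝ => (⟨x, y⟩ : ℂ)) = fun y : ℝ => (x : ℂ) + y * Complex.I := by
      funext t; exact Complex.mk_eq_add_mul_I x t
    rw [h2]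
    have h3 := ((Complex.ofRealCLM.hasDerivAt (x := y)).mul_const Complex.I).const_add (x : ℂ)
    simpa using h3
  exact ((hf.differentiable (by simp)) _).hasFDerivAt.comp_hasDerivAt y h1

theorem cont_fd {f : ℂ → ℝ} (hf : ContDiff ℝ 1 f) (w : ℂ) : Continuous fun z => fderiv ℝ f z w :=
  (hf.continuous_fderiv (by simp)).clm_apply continuous_const

theorem ftc_x {f : ℂ → ℝ} (hf : ContDiff ℝ 1 f) (x x' y : ℝ) :
    f ⟨x, y⟩ - f ⟨x', y⟩ = ∫ t in x'..x, fderiv ℝ f ⟨t, y⟩ 1 :=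
  (intervalIntegral.integral_eq_sub_of_hasDerivAt (fun t _ => deriv_x hf t y)
    ((cont_x (cont_fd hf 1) y).intervalIntegrable _ _)).symm

theorem ftc_y {f : ℂ → ℝ} (hf : ContDiff ℝ 1 f) (x y y' : ℝ) :
    f ⟨x, y⟩ - f ⟨x, y'⟩ = ∫ t in y'..y, fderiv ℝ f ⟨x, t⟩ Complex.I :=
  (intervalIntegral.integral_eq_sub_of_hasDerivAt (fun t _ => deriv_y hf x t)
    ((cont_y (cont_fd hf Complex.I) x).intervalIntegrable _ _)).symm

/-- iterated integral on a square -/
noncomputable def I2 (h : ℝ) (φ : ℂ → ℝ) : ℝ := ∫ x in (-h)..h, ∫ y in (-h)..h, φ ⟨x, y⟩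

theorem I2_mono {h : ℝ} (hh : 0 < h) {φ ψ : ℂ → ℝ} (hφ : Continuous φ) (hψ : Continuous ψ)
    (hle : ∀ z, φ z ≤ ψ z) : I2 h φ ≤ I2 h ψ := by
  unfold I2
  refine intervalIntegral.integral_mono_on (by linarith)
    ((cont_inner hφ _ _).intervalIntegrable _ _) ((cont_inner hψ _ _).intervalIntegrable _ _) ?_
  intro x _
  exact intervalIntegral.integral_mono_on (by linarith) ((cont_y hφ _).intervalIntegrable _ _)
    ((cont_y hψ _).intervalIntegrable _ _) fun y _ => hle _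

theorem I2_add {h : ℝ} {φ ψ : ℂ → ℝ} (hφ : Continuous φ) (hψ : Continuous ψ) :
    I2 h (fun z => φ z + ψ z) = I2 h φ + I2 h ψ := by
  unfold I2
  rw [← intervalIntegral.integral_add ((cont_inner hφ _ _).intervalIntegrable _ _)
    ((cont_inner hψ _ _).intervalIntegrable _ _)]
  refine intervalIntegral.integral_congr fun x _ => ?_
  exact intervalIntegral.integral_add ((cont_y hφ _).intervalIntegrable _ _)
    ((cont_y hψ _).intervalIntegrable _ _)

/-- the half open square -/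
def Qs (h : ℝ) : Set ℂ := {z | z.re ∈ Ioc (-h) h ∧ z.im ∈ Ioc (-h) h}

theorem meas_Qs (h : ℝ) : MeasurableSet (Qs h) :=
  (Complex.measurable_re measurableSet_Ioc).inter (Complex.measurable_im measurableSet_Ioc)

theorem int_Qs {h : ℝ} (hh : 0 < h) {φ : ℂ → ℝ} (hφ : Continuous φ) :
    ∫ z in Qs h, φ z = I2 h φ := by
  have h1 : Qs h = Complex.measurableEquivRealProd ⁻¹' (Ioc (-h) h ×ˢ Ioc (-h) h) := by
    ext z; rfl
  have h2 := Complex.volume_preserving_equiv_real_prod.setIntegral_preimage_emb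
    Complex.measurableEquivRealProd.measurableEmbedding
    (fun p : ℝ × ℝ => φ ⟨p.1, p.2⟩) (Ioc (-h) h ×ˢ Ioc (-h) h)
  rw [h1]
  have h3 : ∀ z : ℂ, φ ⟨(Complex.measurableEquivRealProd z).1, (Complex.measurableEquivRealProd z).2⟩
      = φ z := fun z => rfl
  simp only [h3] at h2
  rw [h2, Measure.volume_eq_prod, setIntegral_prod]
  · unfold I2
    rw [intervalIntegral.integral_of_le (by linarith)]
    refine setIntegral_congr_fun measurableSet_Ioc fun x _ => ?_
    exact (intervalIntegral.integral_of_le (by linarith)).symm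
  · have : IntegrableOn (fun p : ℝ × ℝ => φ ⟨p.1, p.2⟩) (Icc (-h) h ×ˢ Icc (-h) h)
        (volume.prod volume) :=
      (hφ.comp cont_mk).continuousOn.integrableOn_compact (isCompact_Icc.prod isCompact_Icc)
    exact this.mono_set (prod_mono Ioc_subset_Icc_self Ioc_subset_Icc_self)

theorem integrable_of_supp {φ : ℂ → ℝ} (hφ : Continuous φ) (h0 : ∀ z, 2 < ‖z‖ → φ z = 0) :
    Integrable φ := by
  refine hφ.integrable_of_hasCompactSupport ?_
  refine HasCompactSupport.intro (isCompact_closedBall (0 : ℂ) 2) fun z hz => h0 z ?_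
  simpa using hz

theorem int_all {φ : ℂ → ℝ} (hφ : Continuous φ) (h0 : ∀ z, 2 < ‖z‖ → φ z = 0) :
    ∫ z, φ z = I2 3 φ := by
  rw [← int_Qs (by norm_num) hφ]
  symm
  apply setIntegral_eq_integral_of_forall_compl_eq_zero
  intro z hz
  apply h0
  by_contra hcon
  push Not at hcon
  apply hz
  have h1 := (Complex.abs_re_le_norm z).trans hcon
  have h2 := (Complex.abs_im_le_norm z).trans hcon
  rw [abs_le] at h1 h2
  refine ⟨⟨by linarith [h1.1], by linarith [h1.2]⟩, ⟨by linarith [h2.1], by linarith [h2.2]⟩⟩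

end Pool.Agent.KS6_69.DM
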