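import Pool.Agent.KS6_69.DM.Bdry

open Set Filter Topology Complex MeasureTheory
open scoped ContDiff

namespace Pool.Agent.KS6_69.DM

variable {m : ℕ} [hm : Fact m.Prime] {r : ℝ}

/-- sum of squares over the fibre -/
noncomputable def us (u : Curve m → ℝ) (x : Curve m) : ℝ := ∑ e : A m, u (act e x) ^ 2

theorem loc_us (u : Curve m → ℝ) (x : Curve m) :
    loc hp (us u) x = fun z => ∑ e : A m, loc hp (fun y => u (act e y)) x z ^ 2 := rfl

theorem us_smooth {u : Curve m → ℝ} (hu : SmoothC hp 1 u) : SmoothC hp 1 (us u) := by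
  intro x
  rw [loc_us]
  exact ContDiffAt.sum fun e _ => (smooth_act hu e x).pow 2

theorem us_dAt {u : Curve m → ℝ} (hu : SmoothC hp 1 u) (x : Curve m) (w : ℂ) :
    dAt hp (us u) x w = ∑ e : A m, 2 * u (act e x) * dAt hp u (act e x) w := by
  rw [dAt, loc_us]
  have h1 : ∀ e : A m, HasFDerivAt (fun z => loc hp (fun y => u (act e y)) x z ^ 2)
      ((2 * u (act e x)) • dAt hp u (act e x)) (pr x) := by
    intro e
    have h2 := ((smooth_act hu e x).differentiableAt (by simp)).hasFDerivAt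
    have h3 : fderiv ℝ (loc hp (fun y => u (act e y)) x) (pr x) = dAt hp u (act e x) := dAt_act u e x
    rw [h3] at h2
    have h4 := h2.pow 2
    have h5 : loc hp (fun y => u (act e y)) x (pr x) = u (act e x) := by
      rw [loc, hp.localInverseAt_apply_self]
    rw [h5] at h4
    simpa using h4
  have h6 : HasFDerivAt (fun z => ∑ e : A m, loc hp (fun y => u (act e y)) x z ^ 2)
      (∑ e : A m, (2 * u (act e x)) • dAt hp u (act e x)) (pr x) :=
    HasFDerivAt.fun_sum fun e _ => h1 e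
  rw [h6.fderiv]
  simp [_root_.sum_apply]

theorem us_act (u : Curve m → ℝ) (a : A m) (x : Curve m) : us u (act a x) = us u x := by
  unfold us
  refine Fintype.sum_equiv (Equiv.mulRight a) _ _ fun e => ?_
  rw [Equiv.coe_mulRight, act_mul]

/-- as a test function -/
noncomputable def usT (u : TW m r) : TW m r :=
  ⟨us u.1, us_smooth u.2.1, fun x hx => by
    unfold us
    refine Finset.sum_eq_zero fun e _ => ?_
    rw [u.2.2 _ (by rwa [act_mem_KK])]
    simp⟩

theorem int_dy {G : ℂ → ℝ} (hG : ContDiff ℝ 1 G) (hs : ∀ z, 2 < ‖z‖ → G z = 0) :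
    ∫ z, fderiv ℝ G z I = 0 := by
  have hc := cont_fd hG I
  have hs2 : ∀ z, 2 < ‖z‖ → fderiv ℝ G z I = 0 := by
    intro z hz
    have h1 : G =ᶠ[𝓝 z] fun _ => 0 := by
      have : ∀ᶠ w in 𝓝 z, 2 < ‖w‖ := continuous_norm.continuousAt.eventually_const_lt hz
      filter_upwards [this] with w hw
      exact hs w hw
    rw [h1.fderiv_eq, fderiv_fun_const]
    simp
  rw [int_all hc hs2, I2]
  have h3 : ∀ x : ℝ, ∫ y in (-3 : ℝ)..3, fderiv ℝ G ⟨x, y⟩ I = 0 := by
    intro x
    rw [← ftc_y hG x 3 (-3), hs, hs, sub_self]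
    · have := Complex.abs_im_le_norm (⟨x, -3⟩ : ℂ)
      simp only [abs_neg] at this
      have h3 : |(3 : ℝ)| = 3 := by norm_num
      rw [h3] at this
      linarith
    · have := Complex.abs_im_le_norm (⟨x, 3⟩ : ℂ)
      simp only at this
      have h3 : |(3 : ℝ)| = 3 := by norm_num
      rw [h3] at this
      linarith
  simp only [h3]
  simp

/-- the Poincare inequality on the domain -/
theorem poincare (h2 : m ≠ 2) (hr0 : 0 < r) {ρ : ℂ → ℝ} (hρ : GoodW ρ) {c₁ : ℝ} (hc1 : 0 < c₁)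
    (hle : ∀ z, ρ z ≤ c₁) (u : TW m r) :
    (1 / (16 * c₁)) * BB hr0 h2 hρ.cont u u ≤ DD hr0 h2 u u := by
  set F := dn h2 (us u.1) with hF
  have hinv : ∀ (e : A m) x, (usT u).1 (act e x) = (usT u).1 x := fun e x => us_act u.1 e x
  have hFC : ContDiff ℝ 1 F := dn_contDiff h2 hr0 hinv
  have hFs : ∀ z, 2 < ‖z‖ → F z = 0 := fun z hz => dn_supp h2 (usT u) (by linarith)
  have hFpr : ∀ x, F (pr x) = us u.1 x := fun x => dn_pr h2 hinv x
  have hFd : ∀ x, fderiv ℝ F (pr x) I = ∑ e : A m, 2 * u.1 (act e x) * dAt hp u.1 (act e x) I := by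
    intro x
    have h3 : F =ᶠ[𝓝 (pr x)] loc hp (us u.1) x := dn_near h2 hinv x
    rw [← us_dAt u.2.1 x I, dAt, h3.fderiv_eq]
  -- the product with the coordinate
  have hG : ContDiff ℝ 1 fun z : ℂ => z.im * F z := (Complex.imCLM.contDiff).mul hFC
  have hGs : ∀ z : ℂ, 2 < ‖z‖ → z.im * F z = 0 := fun z hz => by rw [hFs z hz, mul_zero]
  have hGd : ∀ z : ℂ, fderiv ℝ (fun z : ℂ => z.im * F z) z I = F z + z.im * fderiv ℝ F z I := by
    intro z
    have h1 : HasFDerivAt (fun z : ℂ => z.im) Complex.imCLM z := Complex.imCLM.hasFDerivAt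
    have h3 := (hFC.differentiable (by simp) z).hasFDerivAt
    have h4 : HasFDerivAt (fun z : ℂ => z.im * F z) (z.im • fderiv ℝ F z + F z • imCLM) z :=
      h1.mul h3
    rw [h4.fderiv]
    simp
    ring
  have hint := int_dy hG hGs
  simp only [hGd] at hint
  have cF : Continuous F := hFC.continuous
  have cdF := cont_fd hFC I
  have iF : Integrable F := integrable_of_supp cF hFs
  have iG : Integrable fun z : ℂ => z.im * fderiv ℝ F z I := by
    refine integrable_of_supp (continuous_im.mul cdF) ?_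
    intro z hz
    have h1 : F =ᶠ[𝓝 z] fun _ => 0 := by
      have : ∀ᶠ w in 𝓝 z, 2 < ‖w‖ := continuous_norm.continuousAt.eventually_const_lt hz
      filter_upwards [this] with w hw
      exact hFs w hw
    rw [h1.fderiv_eq, fderiv_fun_const]
    simp
  rw [integral_add iF iG] at hint
  -- the gradient term
  have hE : FI (ip u.1 u.1) = ∫ z, ∑ e : A m, ip u.1 u.1 (act e (s0 h2 z)) := by
    rw [FI_eq hr0 h2 (adm_ip hr0 u.2 u.2),
      integral_finsetSum _ (fun e _ => (adm_ip hr0 u.2 u.2).integrable hr0 h2 e)]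
  have iE : Integrable fun z => ∑ e : A m, ip u.1 u.1 (act e (s0 h2 z)) :=
    integrable_finsetSum _ (fun e _ => (adm_ip hr0 u.2 u.2).integrable hr0 h2 e)
  have key : ∫ z, -(z.im * fderiv ℝ F z I) ≤
      ∫ z, ((1 / 2) * F z + 8 * ∑ e : A m, ip u.1 u.1 (act e (s0 h2 z))) := by
    refine integral_mono_ae iG.neg ((iF.const_mul _).add (iE.const_mul _)) ?_
    filter_upwards [ae_good m] with z hz
    show -(z.im * fderiv ℝ F z I) ≤ (1 / 2) * F z + 8 * ∑ e : A m, ip u.1 u.1 (act e (s0 h2 z))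
    have hz1 : pr (s0 h2 z) = z := pr_s0 h2 hz
    have h5 := hFd (s0 h2 z)
    have h6 := hFpr (s0 h2 z)
    rw [hz1] at h5 h6
    by_cases hz2 : 2 < ‖z‖
    · have h7 : fderiv ℝ F z I = 0 := by
        have h1 : F =ᶠ[𝓝 z] fun _ => 0 := by
          have : ∀ᶠ w in 𝓝 z, 2 < ‖w‖ := continuous_norm.continuousAt.eventually_const_lt hz2
          filter_upwards [this] with w hw
          exact hFs w hw
        rw [h1.fderiv_eq, fderiv_fun_const]
        simp
      rw [h7, hFs z hz2]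
      have h8 : 0 ≤ ∑ e : A m, ip u.1 u.1 (act e (s0 h2 z)) := Finset.sum_nonneg fun e _ => by
        unfold ip
        nlinarith [sq_nonneg (dAt hp u.1 (act e (s0 h2 z)) 1),
          sq_nonneg (dAt hp u.1 (act e (s0 h2 z)) I)]
      linarith
    · push Not at hz2
      have him : |z.im| ≤ 2 := (Complex.abs_im_le_norm z).trans hz2
      rw [abs_le] at him
      rw [h5, h6, us, Finset.mul_sum, Finset.mul_sum, Finset.mul_sum, ← Finset.sum_neg_distrib,
        ← Finset.sum_add_distrib]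
      refine Finset.sum_le_sum fun e _ => ?_
      unfold ip
      set a := u.1 (act e (s0 h2 z))
      set b := dAt hp u.1 (act e (s0 h2 z)) I
      set c := dAt hp u.1 (act e (s0 h2 z)) 1
      have h9 : -(z.im * (2 * a * b)) ≤ 1 / 2 * a ^ 2 + 2 * z.im ^ 2 * b ^ 2 := by
        nlinarith [sq_nonneg (a + 2 * z.im * b)]
      have h10 : z.im ^ 2 ≤ 4 := by nlinarith [him.1, him.2]
      nlinarith [mul_le_mul_of_nonneg_right h10 (sq_nonneg b), sq_nonneg c]
  have i1 : Integrable fun z => (1 / 2) * F z := iF.const_mul _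
  have i2 : Integrable fun z => 8 * ∑ e : A m, ip u.1 u.1 (act e (s0 h2 z)) := iE.const_mul _
  rw [integral_neg, integral_add i1 i2, integral_const_mul, integral_const_mul, ← hE] at key
  -- the mass term
  have hB : FI (mp ρ u.1 u.1) ≤ c₁ * ∫ z, F z := by
    rw [← integral_const_mul, FI]
    have hM := adm_mp hρ.cont u.2 u.2
    have e1 : ∫ z, ∑ᶠ x ∈ pr ⁻¹' {z}, mp ρ u.1 u.1 x =
        ∫ z, ∑ e : A m, mp ρ u.1 u.1 (act e (s0 h2 z)) := by
      refine integral_congr_ae ?_
      filter_upwards [ae_good m] with z hz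
      exact fib_eq h2 hz _
    rw [e1]
    refine integral_mono_ae (integrable_finsetSum _ (fun e _ => hM.integrable hr0 h2 e))
      (iF.const_mul c₁) ?_
    filter_upwards [ae_good m] with z hz
    have h6 := hFpr (s0 h2 z)
    rw [pr_s0 h2 hz] at h6
    show ∑ e : A m, mp ρ u.1 u.1 (act e (s0 h2 z)) ≤ c₁ * F z
    rw [h6, us, Finset.mul_sum]
    refine Finset.sum_le_sum fun e _ => ?_
    unfold mp
    rw [← pow_two]
    exact mul_le_mul_of_nonneg_right (hle _) (sq_nonneg _)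
  rw [BB_apply, DD_apply]
  have hfin : (∫ z, F z) ≤ 16 * FI (ip u.1 u.1) := by linarith
  have h5 : FI (mp ρ u.1 u.1) ≤ c₁ * (16 * FI (ip u.1 u.1)) :=
    hB.trans (mul_le_mul_of_nonneg_left hfin hc1.le)
  rw [one_div, inv_mul_le_iff₀ (by positivity)]
  linarith

/-- final form of the abstract result -/
theorem mm_final (h2 : m ≠ 2) (hr0 : 0 < r) (hr : r ≤ 1 / 20) {ρ : ℂ → ℝ} (hρ : GoodW ρ) :
    ∃ Λ : ℝ, 0 < Λ ∧
    ∀ k : ℕ, 1 ≤ k → k < m →
    mm (fun w : TW m r => DD hr0 h2 w w)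
      (fun w : TW m r => BB hr0 h2 hρ.cont w w) k = Λ := by
  obtain ⟨Λ, h3, h4⟩ := mm_main h2 hr0 hr hρ
  obtain ⟨c₁, hc1, hle⟩ := hρ.bdd
  exact ⟨Λ, lt_of_lt_of_le (by positivity)
    (h3 (1 / (16 * c₁)) fun w => poincare h2 hr0 hρ hc1 hle w), h4⟩

end Pool.Agent.KS6_69.DM
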