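import Pool.Agent.KS6_69.DM.Conn

open Set Filter Topology Complex

namespace Pool.Agent.KS6_69.DM

variable {m : ℕ} [hm : Fact m.Prime] {r : ℝ}

/-- quotient for a plane map -/
noncomputable def qf (f : ℂ → ℂ) (z : ℂ) (i : ZMod m) : ℂ := (f z - v m i) / (z - v m i)

theorem qf_ne {f : ℂ → ℂ} (hf : ∀ z, good m z → good m (f z)) {z : ℂ} (hz : good m z) (i : ZMod m) :
    qf f z i ≠ 0 := div_ne_zero ((hf z hz).sub_ne i) (hz.sub_ne i)

/-- lift of a plane map -/
noncomputable def lf (f : ℂ → ℂ) (hf : ∀ z, good m z → good m (f z)) (x : Curve m) : Curve m :=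
  Curve.mk' (f (pr x)) (fun j => tt x j * (sq (qf f (pr x) j) / sq (qf f (pr x) (j + 1))))
    (hf _ (pr_good x))
    (fun j => by
      have h1 := tt_eq x j
      have h2 := (pr_good x).sub_ne j
      have h3 := (pr_good x).sub_ne (j + 1)
      have h4 := (hf _ (pr_good x)).sub_ne (j + 1)
      show (tt x j * (sq (qf f (pr x) j) / sq (qf f (pr x) (j + 1)))) ^ 2 *
        (f (pr x) - v m (j + 1)) = f (pr x) - v m j
      rw [mul_pow, div_pow, sq_sq (qf_ne hf (pr_good x) j), sq_sq (qf_ne hf (pr_good x) (j + 1))]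
      unfold qf
      have h5 : tt x j ^ 2 = (pr x - v m j) / (pr x - v m (j + 1)) := by
        rw [eq_div_iff h3]; exact h1
      rw [h5]
      field_simp)
    (by
      have h1 : ∏ j : ZMod m, sq (qf f (pr x) (j + 1)) = ∏ j : ZMod m, sq (qf f (pr x) j) :=
        Fintype.prod_equiv (Equiv.addRight 1) _ _ (fun j => rfl)
      rw [Finset.prod_mul_distrib, Finset.prod_div_distrib, h1, tt_prod, one_mul]
      exact div_self (Finset.prod_ne_zero_iff.2 fun j _ => sq_ne _))

theorem pr_lf (f : ℂ → ℂ) (hf : ∀ z, good m z → good m (f z)) (x : Curve m) :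
    pr (lf f hf x) = f (pr x) := rfl

theorem lf_fix {f : ℂ → ℂ} (hf : ∀ z, good m z → good m (f z)) {x : Curve m} (hx : f (pr x) = pr x) :
    lf f hf x = x := by
  refine Curve.ext' hx fun j => ?_
  show tt x j * (sq (qf f (pr x) j) / sq (qf f (pr x) (j + 1))) = tt x j
  have h1 : ∀ i : ZMod m, qf f (pr x) i = 1 := by
    intro i
    rw [qf, hx]
    exact div_self ((pr_good x).sub_ne i)
  rw [h1, h1, sq_one, div_one, mul_one]

theorem continuous_lf {f : ℂ → ℂ} (hf : ∀ z, good m z → good m (f z))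
    (hc : ∀ z, good m z → ContinuousAt f z)
    (hs : ∀ z, good m z → ∀ i : ZMod m, qf f z i ∈ slitPlane) : Continuous (lf f hf) := by
  have h0 : ∀ x : Curve m, ContinuousAt (fun x => f (pr x)) x := fun x =>
    ContinuousAt.comp (g := f) (hc _ (pr_good x)) continuous_pr.continuousAt
  have h1 : ∀ (i : ZMod m) (x : Curve m), ContinuousAt (fun x => sq (qf f (pr x) i)) x := by
    intro i x
    have h2 : ContinuousAt (fun x => qf f (pr x) i) x := by
      unfold qf
      exact ((h0 x).sub continuousAt_const).div (continuous_pr.continuousAt.sub continuousAt_const)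
        ((pr_good x).sub_ne i)
    exact ContinuousAt.comp (g := sq) (continuousAt_sq (hs _ (pr_good x) i)) h2
  refine continuous_of ?_ fun j => ?_
  · rw [continuous_iff_continuousAt]; exact h0
  · rw [continuous_iff_continuousAt]
    intro x
    exact (continuous_tt j).continuousAt.mul ((h1 j x).div (h1 (j + 1) x) (sq_ne _))

variable (m r) in
/-- disjointness of the discs -/
def Sep : Prop := ∀ i j : ZMod m, i ≠ j → 2 * r < ‖v m i - v m j‖

/-! ### Pushing out of the holes -/

variable (m r) in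
/-- the inner map -/
noncomputable def f1 (z : ℂ) : ℂ := z + ∑ j : ZMod m, ((max 1 (r / ‖z - v m j‖) - 1 : ℝ) : ℂ) * (z - v m j)

theorem coef_zero (hr : 0 < r) {z : ℂ} {j : ZMod m} (h : r ≤ ‖z - v m j‖) :
    max 1 (r / ‖z - v m j‖) - 1 = 0 := by
  have : r / ‖z - v m j‖ ≤ 1 := by
    rw [div_le_one (by linarith)]; exact h
  rw [max_eq_left this, sub_self]

theorem f1_out (hr : 0 < r) {z : ℂ} (h : ∀ j : ZMod m, r ≤ ‖z - v m j‖) : f1 m r z = z := by
  unfold f1
  rw [Finset.sum_eq_zero, add_zero]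
  intro j _
  rw [coef_zero hr (h j)]; simp

theorem f1_in (hr : 0 < r) (hS : Sep m r) {z : ℂ} (hz : good m z) {j : ZMod m}
    (h : ‖z - v m j‖ < r) : f1 m r z = v m j + (r / ‖z - v m j‖ : ℝ) * (z - v m j) := by
  unfold f1
  rw [Finset.sum_eq_single j]
  · have h0 : 0 < ‖z - v m j‖ := norm_pos_iff.2 (hz.sub_ne j)
    have h1 : 1 ≤ r / ‖z - v m j‖ := by rw [one_le_div h0]; exact h.le
    rw [max_eq_right h1]
    push_cast
    ring
  · intro i _ hi
    rw [coef_zero hr]
    · simp
    · have h2 := hS i j hi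
      have h3 : ‖v m i - v m j‖ ≤ ‖z - v m i‖ + ‖z - v m j‖ := by
        have : v m i - v m j = -(z - v m i) + (z - v m j) := by ring
        rw [this]
        exact (norm_add_le _ _).trans (by rw [norm_neg])
      linarith
  · simp

theorem cases_z (z : ℂ) (r : ℝ) : (∀ j : ZMod m, r ≤ ‖z - v m j‖) ∨ ∃ j : ZMod m, ‖z - v m j‖ < r := by
  by_cases h : ∀ j : ZMod m, r ≤ ‖z - v m j‖
  · exact Or.inl h
  · right; push Not at h; exact h

theorem f1_dist (hr : 0 < r) (hS : Sep m r) {z : ℂ} (hz : good m z) (j : ZMod m) :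
    r ≤ ‖f1 m r z - v m j‖ := by
  rcases cases_z (m := m) z r with h | ⟨i, h⟩
  · rw [f1_out hr h]; exact h j
  · have h0 : 0 < ‖z - v m i‖ := norm_pos_iff.2 (hz.sub_ne i)
    have h4 : f1 m r z - v m i = (r / ‖z - v m i‖ : ℝ) * (z - v m i) := by
      rw [f1_in hr hS hz h]; ring
    have h5 : ‖f1 m r z - v m i‖ = r := by
      rw [h4, norm_mul, norm_real, Real.norm_of_nonneg (by positivity)]
      field_simp
    by_cases hij : j = i
    · rw [hij, h5]
    · have h2 := hS j i hij
      have h3 : ‖v m j - v m i‖ ≤ ‖f1 m r z - v m j‖ + ‖f1 m r z - v m i‖ := by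
        have : v m j - v m i = -(f1 m r z - v m j) + (f1 m r z - v m i) := by ring
        rw [this]
        exact (norm_add_le _ _).trans (by rw [norm_neg])
      linarith

theorem f1_good (hr : 0 < r) (hS : Sep m r) (z : ℂ) (hz : good m z) : good m (f1 m r z) := by
  intro j h
  have := f1_dist hr hS hz j
  rw [h, sub_self, norm_zero] at this
  linarith

theorem f1_q (hr : 0 < r) (hS : Sep m r) (z : ℂ) (hz : good m z) (i : ZMod m) :
    qf (f1 m r) z i ∈ slitPlane := by
  rcases cases_z (m := m) z r with h | ⟨j, h⟩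
  · rw [qf, f1_out hr h, div_self (hz.sub_ne i)]; simp
  · have h0 : 0 < ‖z - v m j‖ := norm_pos_iff.2 (hz.sub_ne j)
    by_cases hij : i = j
    · subst hij
      rw [qf, f1_in hr hS hz h, add_sub_cancel_left, mul_div_assoc, div_self (hz.sub_ne i), mul_one]
      left
      rw [ofReal_re]
      positivity
    · have h2 := hS i j hij
      have h3 : ‖v m i - v m j‖ ≤ ‖z - v m i‖ + ‖z - v m j‖ := by
        have : v m i - v m j = -(z - v m i) + (z - v m j) := by ring
        rw [this]
        exact (norm_add_le _ _).trans (by rw [norm_neg])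
      have h4 : qf (f1 m r) z i = 1 + (f1 m r z - z) / (z - v m i) := by
        rw [qf]
        have := hz.sub_ne i
        field_simp
        ring
      rw [h4]
      apply mem_slitPlane_of_norm_lt_one
      have h5 : ‖f1 m r z - z‖ = r - ‖z - v m j‖ := by
        have h6 : f1 m r z - z = (r / ‖z - v m j‖ - 1 : ℝ) * (z - v m j) := by
          rw [f1_in hr hS hz h]; push_cast; ring
        have h7 : 0 ≤ r / ‖z - v m j‖ - 1 := by
          rw [sub_nonneg, one_le_div h0]; exact h.le
        rw [h6, norm_mul, norm_real, Real.norm_of_nonneg h7]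
        field_simp
      rw [norm_div, div_lt_one (norm_pos_iff.2 (hz.sub_ne i)), h5]
      linarith

theorem f1_cont (z : ℂ) (hz : good m z) : ContinuousAt (f1 m r) z := by
  unfold f1
  refine continuousAt_id.add (tendsto_finsetSum _ fun j _ => ?_)
  have h1 : ContinuousAt (fun z : ℂ => max 1 (r / ‖z - v m j‖) - 1) z := by
    refine ContinuousAt.sub ?_ continuousAt_const
    have h2 : ContinuousAt (fun z : ℂ => r / ‖z - v m j‖) z :=
      continuousAt_const.div (by fun_prop) (norm_ne_zero_iff.2 (hz.sub_ne j))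
    exact Filter.Tendsto.max tendsto_const_nhds h2
  exact (continuous_ofReal.continuousAt.comp h1).mul (by fun_prop)

/-! ### Pushing in from outside -/

/-- the outer map -/
noncomputable def f2 (z : ℂ) : ℂ := ((min 1 (11 / 10 / ‖z‖) : ℝ) : ℂ) * z

theorem f2_in {z : ℂ} (hz : ‖z‖ ≤ 11 / 10) : f2 z = z := by
  unfold f2
  by_cases h0 : z = 0
  · rw [h0, mul_zero]
  · have h1 : 0 < ‖z‖ := norm_pos_iff.2 h0
    have : 1 ≤ 11 / 10 / ‖z‖ := by rw [one_le_div h1]; exact hz
    rw [min_eq_left this]; simp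

theorem f2_out {z : ℂ} (hz : 11 / 10 < ‖z‖) : f2 z = ((11 / 10 / ‖z‖ : ℝ) : ℂ) * z ∧ ‖f2 z‖ = 11 / 10 := by
  have h1 : 0 < ‖z‖ := by linarith
  have h2 : 11 / 10 / ‖z‖ ≤ 1 := by rw [div_le_one h1]; exact hz.le
  have h3 : f2 z = ((11 / 10 / ‖z‖ : ℝ) : ℂ) * z := by unfold f2; rw [min_eq_right h2]
  refine ⟨h3, ?_⟩
  rw [h3, norm_mul, norm_real, Real.norm_of_nonneg (by positivity)]
  field_simp

theorem norm_f2 (z : ℂ) : ‖f2 z‖ ≤ 11 / 10 := by
  by_cases h : ‖z‖ ≤ 11 / 10
  · rw [f2_in h]; exact h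
  · push Not at h; exact (f2_out h).2.le

theorem f2_good (z : ℂ) (hz : good m z) : good m (f2 z) := by
  by_cases h : ‖z‖ ≤ 11 / 10
  · rw [f2_in h]; exact hz
  · push Not at h
    intro j hj
    have := (f2_out h).2
    rw [hj, v_norm] at this
    norm_num at this

theorem f2_cont (z : ℂ) : ContinuousAt f2 z := by
  by_cases h : z = 0
  · have h2 : f2 =ᶠ[𝓝 z] fun w => w := by
      have h3 : ∀ᶠ w in 𝓝 z, ‖w‖ < 11 / 10 :=
        continuous_norm.continuousAt.eventually_lt_const (by rw [h]; simp)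
      filter_upwards [h3] with w hw
      exact f2_in hw.le
    exact (continuousAt_id (x := z)).congr h2.symm
  · unfold f2
    have h1 : ContinuousAt (fun z : ℂ => min 1 (11 / 10 / ‖z‖)) z := by
      have h2 : ContinuousAt (fun z : ℂ => 11 / 10 / ‖z‖) z :=
        continuousAt_const.div (by fun_prop) (norm_ne_zero_iff.2 h)
      exact Filter.Tendsto.min tendsto_const_nhds h2
    exact (continuous_ofReal.continuousAt.comp h1).mul continuousAt_id

theorem f2_q (z : ℂ) (hz : good m z) (i : ZMod m) : qf f2 z i ∈ slitPlane := by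
  by_cases h : ‖z‖ ≤ 11 / 10
  · rw [qf, f2_in h, div_self (hz.sub_ne i)]; simp
  · push Not at h
    left
    have h1 := (f2_out h).1
    set c := 11 / 10 / ‖z‖ with hc
    have hz0 : 0 < ‖z‖ := by linarith
    have hc0 : 0 < c := by positivity
    have hcz : c * ‖z‖ = 11 / 10 := by rw [hc]; field_simp
    have hn := v_norm m i
    set w := v m i with hw
    rw [qf, h1, ← hw]
    have h2 := hz.sub_ne i
    rw [← hw] at h2
    have h3 : 0 < normSq (z - w) := normSq_pos.2 h2
    rw [div_re, ← add_div]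
    apply div_pos _ h3
    have h4 : z.re ^ 2 + z.im ^ 2 = ‖z‖ ^ 2 := by
      rw [Complex.sq_norm, normSq_apply]; ring
    have h5 : w.re ^ 2 + w.im ^ 2 = 1 := by
      have := Complex.sq_norm w
      rw [hn, normSq_apply] at this; linarith
    have h6 : z.re * w.re + z.im * w.im ≤ ‖z‖ := by
      have h7 : (z.re * w.re + z.im * w.im) ^ 2 ≤ ‖z‖ ^ 2 := by
        nlinarith [sq_nonneg (z.re * w.im - z.im * w.re)]
      exact le_of_sq_le_sq h7 hz0.le
    simp only [sub_re, sub_im, mul_re, mul_im, ofReal_re, ofReal_im, zero_mul, sub_zero, add_zero]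
    have h8 : (c * z.re - w.re) * (z.re - w.re) + (c * z.im - w.im) * (z.im - w.im) =
        c * (z.re ^ 2 + z.im ^ 2) - (1 + c) * (z.re * w.re + z.im * w.im) +
        (w.re ^ 2 + w.im ^ 2) := by ring
    rw [h8, h4, h5]
    have h9 : (1 + c) * (z.re * w.re + z.im * w.im) ≤ (1 + c) * ‖z‖ :=
      mul_le_mul_of_nonneg_left h6 (by linarith)
    have h10 : c * ‖z‖ ^ 2 = 11 / 10 * ‖z‖ := by rw [pow_two, ← mul_assoc, hcz]
    nlinarith

/-! ### The domain is connected -/

theorem connected_KK (h2 : m ≠ 2) (hr : 0 < r) (hr4 : r ≤ 1 / 20) (hS : Sep m r) :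
    IsConnected (KK m r) := by
  have hA : ∀ z, good m z → good m (f1 m r z) := f1_good hr hS
  have hB : ∀ z, good m z → good m (f2 z) := f2_good
  have c1 : Continuous (lf (f1 m r) hA) := continuous_lf hA f1_cont (f1_q hr hS)
  have c2 : Continuous (lf f2 hB) := continuous_lf hB (fun z _ => f2_cont z) f2_q
  have hpre : IsPreconnected (range (lf f2 hB ∘ lf (f1 m r) hA)) := by
    rw [← image_univ]
    exact (preconnected_curve h2).image _ (c2.comp c1).continuousOn
  have hrange : range (lf f2 hB ∘ lf (f1 m r) hA) = KK m r := by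
    ext x
    constructor
    · rintro ⟨y, rfl⟩
      refine ⟨norm_f2 _, fun j => ?_⟩
      show r ≤ ‖f2 (f1 m r (pr y)) - v m j‖
      by_cases h : ‖f1 m r (pr y)‖ ≤ 11 / 10
      · rw [f2_in h]; exact f1_dist hr hS (pr_good y) j
      · push Not at h
        have h3 := (f2_out h).2
        have h4 : ‖f2 (f1 m r (pr y))‖ ≤ ‖f2 (f1 m r (pr y)) - v m j‖ + ‖v m j‖ := by
          have := norm_add_le (f2 (f1 m r (pr y)) - v m j) (v m j)
          rwa [sub_add_cancel] at this
        rw [v_norm] at h4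
        linarith
    · rintro ⟨hx1, hx2⟩
      refine ⟨x, ?_⟩
      have e1 : lf (f1 m r) hA x = x := lf_fix hA (f1_out hr hx2)
      have e3 : lf f2 hB x = x := lf_fix hB (f2_in hx1)
      show lf f2 hB (lf (f1 m r) hA x) = x
      rw [e1, e3]
  rw [hrange] at hpre
  refine ⟨⟨s0 h2 0, ?_⟩, hpre⟩
  have h0 := pr_s0 h2 (good_zero m)
  refine ⟨by rw [h0]; norm_num, fun j => ?_⟩
  rw [h0, zero_sub, norm_neg, v_norm]
  linarith

end Pool.Agent.KS6_69.DM
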