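import Pool.Agent.KS6_69.DM.Wirt

open Set Filter Topology MeasureTheory
open scoped ContDiff Interval

namespace Pool.Agent.KS6_69.DM

/-- first Fourier coefficient in the direction `x` -/
noncomputable def FA (h : ℝ) (φ : ℂ → ℝ) (y : ℝ) : ℝ := ∫ x in (-h)..h, φ ⟨x, y⟩ * cs h x

theorem cont_FA {φ : ℂ → ℝ} (hφ : Continuous φ) (h : ℝ) : Continuous (FA h φ) := by
  have hc : Continuous (Function.uncurry fun y x : ℝ => φ ⟨x, y⟩ * cs h x) :=
    (cont_unc' hφ).mul ((cont_cs h).comp continuous_snd)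
  exact intervalIntegral.continuous_parametric_intervalIntegral_of_continuous' hc _ _

theorem exp1 {h : ℝ} (hh : 0 < h) {w : ℝ → ℝ} (hw : Continuous w) {a : ℝ}
    (ha : ∫ x in (-h)..h, w x * cs h x = a) :
    ∫ x in (-h)..h, (w x - a * (cs h x / h)) ^ 2 = (∫ x in (-h)..h, w x ^ 2) - a ^ 2 / h := by
  have hcs := cont_cs h
  have e : ∀ x, (w x - a * (cs h x / h)) ^ 2 = (w x ^ 2 -
      (2 * a / h) * (w x * cs h x)) + (a / h) ^ 2 * cs h x ^ 2 := fun x => by ring
  simp only [e]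
  rw [intervalIntegral.integral_add, intervalIntegral.integral_sub,
    intervalIntegral.integral_const_mul, intervalIntegral.integral_const_mul, int_cs2 hh, ha]
  · field_simp
    ring
  all_goals exact Continuous.intervalIntegrable (by fun_prop) _ _

/-- orthogonal decomposition -/
theorem expand {h : ℝ} (hh : 0 < h) {φ : ℂ → ℝ} (hφ : Continuous φ) :
    ∫ x in (-h)..h, ∫ y in (-h)..h, (φ ⟨x, y⟩ - FA h φ y * (cs h x / h)) ^ 2 =
      I2 h (fun z => φ z ^ 2) - (∫ y in (-h)..h, FA h φ y ^ 2) / h := by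
  have hA := cont_FA hφ h
  have hlt : -h ≤ h := by linarith
  have hcs := cont_cs h
  have hinner : ∀ y, ∫ x in (-h)..h, (φ ⟨x, y⟩ - FA h φ y * (cs h x / h)) ^ 2 =
      (∫ x in (-h)..h, φ ⟨x, y⟩ ^ 2) - FA h φ y ^ 2 / h := by
    intro y
    exact exp1 hh (cont_x hφ y) rfl
  have hc1 : Continuous (Function.uncurry fun x y : ℝ =>
      (φ ⟨x, y⟩ - FA h φ y * (cs h x / h)) ^ 2) := by
    have a1 := cont_unc hφ
    have a2 : Continuous fun p : ℝ × ℝ => FA h φ p.2 := hA.comp continuous_snd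
    have a3 : Continuous fun p : ℝ × ℝ => cs h p.1 / h := (hcs.comp continuous_fst).div_const _
    exact (a1.sub (a2.mul a3)).pow 2
  have hc2 : Continuous (Function.uncurry fun x y : ℝ => φ ⟨x, y⟩ ^ 2) := (cont_unc hφ).pow 2
  rw [swapII hlt hlt hc1]
  simp only [hinner]
  rw [intervalIntegral.integral_sub, intervalIntegral.integral_div]
  · congr 1
    unfold I2
    rw [swapII hlt hlt hc2]
  · have hc3 : Continuous (Function.uncurry fun y x : ℝ => φ ⟨x, y⟩ ^ 2) := (cont_unc' hφ).pow 2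
    exact (intervalIntegral.continuous_parametric_intervalIntegral_of_continuous' hc3
      _ _).intervalIntegrable _ _
  · exact Continuous.intervalIntegrable (by fun_prop) _ _

/-- the second Dirichlet eigenvalue of a square -/
theorem square {h k k₀ : ℝ} (hh : 0 < h) (hk : 0 ≤ k) (hkh : k * h < Real.pi)
    (hk2 : (Real.pi / (2 * h)) ^ 2 ≤ k ^ 2) (hk0 : 0 ≤ k₀) (hk0h : k₀ * (2 * h) < Real.pi)
    {f : ℂ → ℝ} (hf : ContDiff ℝ 1 f) (hx1 : ∀ y, f ⟨-h, y⟩ = 0) (hx2 : ∀ y, f ⟨h, y⟩ = 0)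
    (hy1 : ∀ x, f ⟨x, -h⟩ = 0) (hy2 : ∀ x, f ⟨x, h⟩ = 0)
    (h0 : I2 h (fun z => f z * (cs h z.re * cs h z.im)) = 0) :
    (k ^ 2 + k₀ ^ 2) * I2 h (fun z => f z ^ 2) ≤
      I2 h (fun z => fderiv ℝ f z 1 ^ 2 + fderiv ℝ f z Complex.I ^ 2) := by
  have hfc : Continuous f := hf.continuous
  have hX := cont_fd hf 1
  have hY := cont_fd hf Complex.I
  have hX2 : Continuous fun z => fderiv ℝ f z 1 ^ 2 := hX.pow 2
  have hY2 : Continuous fun z => fderiv ℝ f z Complex.I ^ 2 := hY.pow 2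
  have hf2 : Continuous fun z => f z ^ 2 := hfc.pow 2
  have hlt : -h ≤ h := by linarith
  have hcs := cont_cs h
  set q := Real.pi / (2 * h) with hq
  set A := FA h f with hA
  set B := FA h (fun z => fderiv ℝ f z Complex.I) with hB
  have hAc : Continuous A := cont_FA hfc h
  have hBc : Continuous B := cont_FA hY h
  -- derivative of the coefficient
  have hFTC : ∀ y, A y = A 0 + ∫ t in (0 : ℝ)..y, B t := by
    have key : ∀ y y', y' ≤ y → A y - A y' = ∫ t in y'..y, B t := by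
      intro y y' hy
      have a1 : Continuous (Function.uncurry fun t x : ℝ =>
          fderiv ℝ f ⟨x, t⟩ Complex.I * cs h x) :=
        (cont_unc' hY).mul (hcs.comp continuous_snd)
      have e1 : ∫ t in y'..y, B t =
          ∫ x in (-h)..h, ∫ t in y'..y, fderiv ℝ f ⟨x, t⟩ Complex.I * cs h x :=
        swapII hy hlt a1
      have e2 : ∀ x, ∫ t in y'..y, fderiv ℝ f ⟨x, t⟩ Complex.I * cs h x =
          f ⟨x, y⟩ * cs h x - f ⟨x, y'⟩ * cs h x := by
        intro x
        rw [intervalIntegral.integral_mul_const, ← ftc_y hf x y y']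
        ring
      rw [e1]
      simp only [e2]
      rw [intervalIntegral.integral_sub]
      · rfl
      · exact ((cont_x hfc y).mul hcs).intervalIntegrable _ _
      · exact ((cont_x hfc y').mul hcs).intervalIntegrable _ _
    intro y
    rcases le_total 0 y with hy | hy
    · have := key y 0 hy; linarith
    · have := key 0 y hy
      rw [intervalIntegral.integral_symm]; linarith
  have hAd : ∀ y, HasDerivAt A (B y) y := by
    intro y
    have h1 : HasDerivAt (fun y => A 0 + ∫ t in (0 : ℝ)..y, B t) (B y) y :=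
      (intervalIntegral.integral_hasDerivAt_right (hBc.intervalIntegrable _ _)
        (hBc.stronglyMeasurableAtFilter _ _) hBc.continuousAt).const_add _
    have h2 : A = fun y => A 0 + ∫ t in (0 : ℝ)..y, B t := funext hFTC
    rw [h2]
    have h3 : (fun y => A 0 + ∫ t in (0 : ℝ)..y, B t) 0 = A 0 := by simp
    rw [h3] at *
    exact h1
  have hAh : A h = 0 := by
    rw [hA]; unfold FA
    simp only [hy2]; simp
  have hAn : A (-h) = 0 := by
    rw [hA]; unfold FA
    simp only [hy1]; simp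
  have hAcs : ∫ t in (-h)..h, A t * cs h t = 0 := by
    rw [← h0]
    unfold I2
    have hc1 : Continuous (Function.uncurry fun x y : ℝ => f ⟨x, y⟩ * (cs h x * cs h y)) :=
      (cont_unc hfc).mul ((hcs.comp continuous_fst).mul (hcs.comp continuous_snd))
    have e1 := swapII hlt hlt hc1
    show _ = ∫ x in (-h)..h, ∫ y in (-h)..h, f ⟨x, y⟩ * (cs h x * cs h y)
    rw [e1]
    refine intervalIntegral.integral_congr fun y _ => ?_
    show A y * cs h y = ∫ x in (-h)..h, f ⟨x, y⟩ * (cs h x * cs h y)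
    rw [hA]; unfold FA
    rw [← intervalIntegral.integral_mul_const]
    refine intervalIntegral.integral_congr fun x _ => ?_
    show f ⟨x, y⟩ * cs h x * cs h y = f ⟨x, y⟩ * (cs h x * cs h y)
    ring
  -- direction x
  have s1 : ∀ y, k ^ 2 * (∫ x in (-h)..h, f ⟨x, y⟩ ^ 2) - (k ^ 2 - q ^ 2) / h * A y ^ 2 ≤
      ∫ x in (-h)..h, fderiv ℝ f ⟨x, y⟩ 1 ^ 2 := fun y =>
    W2 hh hk hkh hk2 (fun x => deriv_x hf x y) (cont_x hX y) (hx1 y) (hx2 y)
  have c2 : Continuous (Function.uncurry fun y x : ℝ => f ⟨x, y⟩ ^ 2) := cont_unc' hf2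
  have c3 : Continuous (Function.uncurry fun y x : ℝ => fderiv ℝ f ⟨x, y⟩ 1 ^ 2) := cont_unc' hX2
  have c2' : Continuous fun y : ℝ => ∫ x in (-h)..h, f ⟨x, y⟩ ^ 2 :=
    intervalIntegral.continuous_parametric_intervalIntegral_of_continuous' c2 _ _
  have c3' : Continuous fun y : ℝ => ∫ x in (-h)..h, fderiv ℝ f ⟨x, y⟩ 1 ^ 2 :=
    intervalIntegral.continuous_parametric_intervalIntegral_of_continuous' c3 _ _
  set MA := ∫ y in (-h)..h, A y ^ 2 with hMA
  set MB := ∫ y in (-h)..h, B y ^ 2 with hMB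
  set M := I2 h (fun z => f z ^ 2) with hM
  set EX := I2 h (fun z => fderiv ℝ f z 1 ^ 2) with hEX
  set EY := I2 h (fun z => fderiv ℝ f z Complex.I ^ 2) with hEY
  have s2 : k ^ 2 * M - (k ^ 2 - q ^ 2) / h * MA ≤ EX := by
    have e1 : M = ∫ y in (-h)..h, ∫ x in (-h)..h, f ⟨x, y⟩ ^ 2 :=
      swapII hlt hlt (cont_unc hf2)
    have e2 : EX = ∫ y in (-h)..h, ∫ x in (-h)..h, fderiv ℝ f ⟨x, y⟩ 1 ^ 2 :=
      swapII hlt hlt (cont_unc hX2)
    rw [e1, e2, hMA, ← intervalIntegral.integral_const_mul, ← intervalIntegral.integral_const_mul,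
      ← intervalIntegral.integral_sub]
    · refine intervalIntegral.integral_mono_on hlt ?_ (c3'.intervalIntegrable _ _) fun y _ => s1 y
      exact ((c2'.const_mul _).sub ((hAc.pow 2).const_mul _)).intervalIntegrable _ _
    · exact (c2'.const_mul _).intervalIntegrable _ _
    · exact ((hAc.pow 2).const_mul _).intervalIntegrable _ _
  -- direction y
  have s3 : ∀ x, k₀ ^ 2 * (∫ y in (-h)..h, (f ⟨x, y⟩ - A y * (cs h x / h)) ^ 2) ≤
      ∫ y in (-h)..h, (fderiv ℝ f ⟨x, y⟩ Complex.I - B y * (cs h x / h)) ^ 2 := by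
    intro x
    refine W1 hlt hk0 (by linarith) (w := fun y => f ⟨x, y⟩ - A y * (cs h x / h))
      (w' := fun y => fderiv ℝ f ⟨x, y⟩ Complex.I - B y * (cs h x / h)) ?_ ?_ ?_ ?_
    · intro y
      exact (deriv_y hf x y).sub ((hAd y).mul_const _)
    · exact (cont_y hY x).sub (hBc.mul continuous_const)
    · simp only [hy1, hAn]; ring
    · simp only [hy2, hAh]; ring
  have d1 : Continuous (Function.uncurry fun x y : ℝ => (f ⟨x, y⟩ - A y * (cs h x / h)) ^ 2) :=
    ((cont_unc hfc).sub ((hAc.comp continuous_snd).mul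
      ((hcs.comp continuous_fst).div_const _))).pow 2
  have d2 : Continuous (Function.uncurry fun x y : ℝ =>
      (fderiv ℝ f ⟨x, y⟩ Complex.I - B y * (cs h x / h)) ^ 2) :=
    ((cont_unc hY).sub ((hBc.comp continuous_snd).mul
      ((hcs.comp continuous_fst).div_const _))).pow 2
  have s4 : k₀ ^ 2 * (M - MA / h) ≤ EY - MB / h := by
    rw [hM, hMA, ← expand hh hfc, hEY, hMB, ← expand hh hY,
      ← intervalIntegral.integral_const_mul]
    refine intervalIntegral.integral_mono_on hlt ?_ ?_ fun x _ => s3 x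
    · exact ((intervalIntegral.continuous_parametric_intervalIntegral_of_continuous' d1
        _ _).const_mul _).intervalIntegrable _ _
    · exact (intervalIntegral.continuous_parametric_intervalIntegral_of_continuous' d2
        _ _).intervalIntegrable _ _
  -- the coefficient
  have s5 : k ^ 2 * MA ≤ MB := by
    have := W2 hh hk hkh hk2 hAd hBc hAn hAh
    rw [hAcs] at this
    linarith
  have hMA0 : 0 ≤ MA := intervalIntegral.integral_nonneg hlt fun t _ => sq_nonneg _
  have hkq : k₀ ^ 2 ≤ q ^ 2 := by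
    have : k₀ ≤ q := by rw [hq, le_div_iff₀ (by positivity)]; exact hk0h.le
    exact pow_le_pow_left₀ hk0 this 2
  have s6 : I2 h (fun z => fderiv ℝ f z 1 ^ 2 + fderiv ℝ f z Complex.I ^ 2) = EX + EY :=
    I2_add hX2 hY2
  rw [s6]
  have s7 : k ^ 2 * MA / h ≤ MB / h := div_le_div_of_nonneg_right s5 hh.le
  have s8 : 0 ≤ (q ^ 2 - k₀ ^ 2) * (MA / h) := mul_nonneg (by linarith) (by positivity)
  have s9 : (k ^ 2 - q ^ 2) / h * MA = (k ^ 2 - q ^ 2) * (MA / h) := by ring
  have s10 : k ^ 2 * MA / h = k ^ 2 * (MA / h) := by ring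
  rw [s9] at s2
  rw [s10] at s7
  nlinarith

end Pool.Agent.KS6_69.DM
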