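import Pool.Agent.KS6_69.DM.Sector
import Pool.Agent.KS6_69.DM.Phi

open Set Filter Topology MeasureTheory Complex
open scoped ContDiff

namespace Pool.Agent.KS6_69.DM

variable {m : ℕ} [hm : Fact m.Prime] {r : ℝ}

/-! ### The test element -/

/-- quotient with the base root -/
noncomputable def qq (x : Curve m) : ℂ :=
  tt x 0 / (kap m * aa (pr x) (0 : ZMod m) / aa (pr x) (1 : ZMod m))

theorem tau_sq (h2 : m ≠ 2) {z : ℂ} (h : good m z) :
    (kap m * aa z (0 : ZMod m) / aa z (1 : ZMod m)) ^ 2 = rr (0 : ZMod m) z := by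
  have h1 := tt_sq (S0 h2 z h) 0
  have e : tt (S0 h2 z h) 0 = kap m * aa z 0 / aa z (0 + 1 : ZMod m) := rfl
  rw [e, zero_add] at h1
  exact h1

theorem kap_ne : kap m ≠ 0 := v_ne m _

theorem tau_ne (z : ℂ) : kap m * aa z (0 : ZMod m) / aa z (1 : ZMod m) ≠ 0 :=
  div_ne_zero (mul_ne_zero kap_ne (sq_ne _)) (sq_ne _)

theorem qq_sq (h2 : m ≠ 2) (x : Curve m) : qq x ^ 2 = 1 := by
  rw [qq, div_pow, tau_sq h2 (pr_good x), tt_sq]
  exact div_self (rr_ne (pr_good x) 0)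

theorem qq_cases (h2 : m ≠ 2) (x : Curve m) : (qq x).re = 1 ∨ (qq x).re = -1 := by
  rcases sq_eq_sq_iff_eq_or_eq_neg.1 ((qq_sq h2 x).trans (one_pow 2).symm) with h | h
  · left; rw [h]; simp
  · right; rw [h]; simp

theorem slit_of_norm {z : ℂ} (hz : ‖z‖ < 1) (j : ZMod m) : 1 - z * v m (-j) ∈ slitPlane := by
  left
  have h1 : (z * v m (-j)).re ≤ ‖z * v m (-j)‖ := re_le_norm _
  rw [norm_mul, v_norm, mul_one] at h1
  simp only [sub_re, one_re]
  linarith

theorem continuousAt_aa {z : ℂ} {j : ZMod m} (hz : 1 - z * v m (-j) ∈ slitPlane) :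
    ContinuousAt (fun z => aa z j) z := by
  unfold aa
  exact ContinuousAt.comp (g := sq) (continuousAt_sq hz) (by fun_prop)

theorem continuousAt_qq {x : Curve m} (hx : ‖pr x‖ < 1) : ContinuousAt qq x := by
  unfold qq
  have h1 : ∀ j : ZMod m, ContinuousAt (fun x : Curve m => aa (pr x) j) x := fun j =>
    ContinuousAt.comp (g := fun z => aa z j) (continuousAt_aa (slit_of_norm hx j))
      continuous_pr.continuousAt
  exact (continuous_tt 0).continuousAt.div ((continuousAt_const.mul (h1 0)).div (h1 1) (sq_ne _))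
    (tau_ne _)

theorem qq_near (h2 : m ≠ 2) {x : Curve m} (hx : ‖pr x‖ < 1) : ∀ᶠ y in 𝓝 x, (qq y).re = (qq x).re := by
  have h1 : ContinuousAt (fun y => (qq y).re) x := continuous_re.continuousAt.comp (continuousAt_qq hx)
  rcases qq_cases h2 x with h | h
  · have h3 : ∀ᶠ y in 𝓝 x, 0 < (qq y).re := h1.eventually_const_lt (by simp only [h]; norm_num)
    filter_upwards [h3] with y hy
    rcases qq_cases h2 y with h4 | h4
    · rw [h4, h]
    · rw [h4] at hy; norm_num at hy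
  · have h3 : ∀ᶠ y in 𝓝 x, (qq y).re < 0 := h1.eventually_lt_const (by simp only [h]; norm_num)
    filter_upwards [h3] with y hy
    rcases qq_cases h2 y with h4 | h4
    · rw [h4] at hy; norm_num at hy
    · rw [h4, h]

/-- the test element -/
noncomputable def wt (x : Curve m) : ℝ := (qq x).re * phi (pr x)

theorem wt_near (h2 : m ≠ 2) (x : Curve m) : ∃ c : ℝ, c * c = 1 ∧
    loc hp wt x =ᶠ[𝓝 (pr x)] fun z => c * phi z := by
  have h3 := π_localInverse hp x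
  by_cases hx : ‖pr x‖ < 1
  · refine ⟨(qq x).re, ?_, ?_⟩
    · rcases qq_cases h2 x with h | h <;> rw [h] <;> norm_num
    · filter_upwards [h3, (tendsto_localInverse hp x).eventually (qq_near h2 hx)] with z hz hz2
      rw [loc, wt, hz, hz2]
  · refine ⟨1, by norm_num, ?_⟩
    have h4 : ∀ᶠ z in 𝓝 (pr x), 9 / 10 < ‖z‖ :=
      continuous_norm.continuousAt.eventually_const_lt (by push Not at hx; linarith)
    filter_upwards [h3, h4] with z hz hz2
    rw [loc, wt, hz, phi_zero hz2.le, mul_zero, mul_zero]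

theorem smooth_wt (h2 : m ≠ 2) : SmoothC (hp (m := m)) 1 wt := by
  intro x
  obtain ⟨c, -, hc⟩ := wt_near h2 x
  exact ((contDiff_const.mul contDiff_phi).contDiffAt).congr_of_eventuallyEq hc

theorem wt_sq (h2 : m ≠ 2) (x : Curve m) : wt x * wt x = phi (pr x) * phi (pr x) := by
  unfold wt
  rcases qq_cases h2 x with h | h <;> rw [h] <;> ring

theorem ip_wt (h2 : m ≠ 2) (x : Curve m) : ip wt wt x =
    fderiv ℝ phi (pr x) 1 ^ 2 + fderiv ℝ phi (pr x) I ^ 2 := by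
  obtain ⟨c, hc1, hc⟩ := wt_near h2 x
  have h3 : dAt hp wt x = c • fderiv ℝ phi (pr x) := by
    rw [dAt, hc.fderiv_eq]
    rw [fderiv_const_mul]
    exact contDiff_phi.differentiable (by simp) _
  unfold ip
  rw [h3]
  simp only [_root_.smul_apply, smul_eq_mul]
  linear_combination (fderiv ℝ phi (pr x) 1 ^ 2 + fderiv ℝ phi (pr x) I ^ 2) * hc1

theorem wt_off (hr : r ≤ 1 / 20) {x : Curve m} (hx : x ∉ KK m r) : wt x = 0 := by
  have h3 : 9 / 10 ≤ ‖pr x‖ := by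
    by_contra hcon
    push Not at hcon
    apply hx
    refine ⟨by linarith, fun j => ?_⟩
    have h4 : ‖v m j‖ ≤ ‖pr x - v m j‖ + ‖pr x‖ := by
      have : v m j = -(pr x - v m j) + pr x := by ring
      calc ‖v m j‖ = ‖-(pr x - v m j) + pr x‖ := by rw [← this]
        _ ≤ _ := (norm_add_le _ _).trans (by rw [norm_neg])
    rw [v_norm] at h4
    linarith
  rw [wt, phi_zero h3, mul_zero]

/-- the test element in the space -/
noncomputable def wtt (h2 : m ≠ 2) (hr : r ≤ 1 / 20) : TW m r :=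
  ⟨wt, smooth_wt h2, fun _ hx => wt_off hr hx⟩

theorem sg_re (e : ℤˣ) : (sg e).re = ((e : ℤ) : ℝ) ∧ (sg e).im = 0 := by
  rcases Int.units_eq_one_or e with h | h <;> simp [sg, h]

theorem wt_act (e : A m) (x : Curve m) : wt (act e x) = ch {0} e * wt x := by
  unfold wt qq ch chi
  rw [tt_act, pr_act, mul_div_assoc, mul_re, (sg_re _).1, (sg_re _).2, Finset.prod_singleton]
  ring

theorem Ta_wtt (h2 : m ≠ 2) (hr : r ≤ 1 / 20) (e : A m) :
    Ta e (wtt h2 hr) = ch {0} e • wtt h2 hr := by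
  apply Subtype.ext; funext x
  exact wt_act e x

theorem sum_ch_zero : ∑ e : A m, ch {0} e = 0 := by
  set e0 : ZMod m → ℤˣ := fun j => (if j = 0 then -1 else 1) * (if j = 1 then -1 else 1) with he0
  haveI : Fact (1 < m) := ⟨hm.out.one_lt⟩
  have h01 : (0 : ZMod m) ≠ 1 := zero_ne_one
  set e : A m := ⟨e0, mem_A.2 (by
    rw [he0, Finset.prod_mul_distrib, Finset.prod_ite_eq', Finset.prod_ite_eq']; simp)⟩ with he
  have h1 : ch {0} e = -1 := by
    unfold ch chi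
    rw [he, Finset.prod_singleton]
    simp [he0, h01]
  have h2 : ∑ a : A m, ch {0} a = ∑ a : A m, ch {0} (a * e) :=
    (Fintype.sum_equiv (Equiv.mulRight e) _ _ fun a => rfl).symm
  simp only [ch_mul] at h2
  rw [← Finset.sum_mul, h1] at h2
  linarith

theorem Q_wtt (h2 : m ≠ 2) (hr : r ≤ 1 / 20) : Q ∅ (wtt h2 hr) = 0 := by
  rw [Q_apply]
  simp only [ch_empty, one_smul, Ta_wtt]
  rw [← Finset.sum_smul, sum_ch_zero, zero_smul, smul_zero]

theorem wtt_ne (h2 : m ≠ 2) (hr : r ≤ 1 / 20) : wtt h2 hr ≠ 0 := by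
  intro h
  have h1 : wt (s0 h2 0) = 0 := by
    have := congrArg (fun u : TW m r => u.1 (s0 h2 0)) h
    exact this
  have h3 := wt_sq h2 (s0 h2 0)
  rw [h1, pr_s0 h2 (good_zero m)] at h3
  have h4 : phi 0 = 1 := by simp [phi]
  rw [h4] at h3
  norm_num at h3

theorem FI_pr (h2 : m ≠ 2) {g : Curve m → ℝ} (G : ℂ → ℝ) (hg : g = fun x => G (pr x)) :
    FI g = (Fintype.card (A m) : ℝ) * ∫ z, G z := by
  subst hg
  rw [← integral_const_mul, FI]
  refine integral_congr_ae ?_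
  filter_upwards [ae_good m] with z hz
  rw [fib_eq h2 hz]
  simp only [pr_act, pr_s0 h2 hz]
  rw [Finset.sum_const, Finset.card_univ, nsmul_eq_mul]

theorem test_ineq (h2 : m ≠ 2) (hr0 : 0 < r) (hr : r ≤ 1 / 20) {ρ : ℂ → ℝ} (hρ : GoodW ρ)
    {c₀ : ℝ} (hc0 : 0 < c₀)
    (hn : ∀ z, ‖z‖ ≤ 11 / 10 → c₀ * (19 / 20) ≤ ρ z ∧ ρ z ≤ c₀ * (21 / 20)) :
    DD hr0 h2 (wtt h2 hr) (wtt h2 hr) ≤
      (9 / c₀) * BB hr0 h2 hρ.cont (wtt h2 hr) (wtt h2 hr) := by
  rw [DD_apply, BB_apply]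
  have e1 : ip (wtt h2 hr).1 (wtt h2 hr).1 = fun x : Curve m =>
      (fun z => fderiv ℝ phi z 1 ^ 2 + fderiv ℝ phi z I ^ 2) (pr x) := by
    funext x; exact ip_wt h2 x
  have e2 : mp ρ (wtt h2 hr).1 (wtt h2 hr).1 = fun x : Curve m =>
      (fun z => ρ z * (phi z * phi z)) (pr x) := by
    funext x
    show ρ (pr x) * (wt x * wt x) = _
    rw [wt_sq h2]
  rw [FI_pr h2 (fun z => fderiv ℝ phi z 1 ^ 2 + fderiv ℝ phi z I ^ 2) e1,
    FI_pr h2 (fun z => ρ z * (phi z * phi z)) e2]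
  have h3 := phi_test hρ hc0 hn
  have h4 : (0 : ℝ) < Fintype.card (A m) := by
    have : 0 < Fintype.card (A m) := Fintype.card_pos
    positivity
  nlinarith [mul_le_mul_of_nonneg_left h3 h4.le]

/-! ### Invariant functions -/

open Classical in
/-- the function on the plane given by an invariant function -/
noncomputable def dn (h2 : m ≠ 2) (u : Curve m → ℝ) (z : ℂ) : ℝ :=
  if good m z then u (s0 h2 z) else 0

theorem inv_of_Q {u : TW m r} (hu : Q ∅ u = u) (e : A m) (x : Curve m) :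
    u.1 (act e x) = u.1 x := by
  have h1 := Ta_Q ∅ u e
  rw [hu, ch_empty, one_smul] at h1
  exact congrArg (fun w : TW m r => w.1 x) h1

theorem dn_pr (h2 : m ≠ 2) {u : Curve m → ℝ} (hu : ∀ (e : A m) x, u (act e x) = u x) (x : Curve m) :
    dn h2 u (pr x) = u x := by
  rw [dn, if_pos (pr_good x)]
  obtain ⟨e, he⟩ := exists_act (x := s0 h2 (pr x)) (y := x) (pr_s0 h2 (pr_good x))
  rw [← hu e, he]

theorem dn_near (h2 : m ≠ 2) {u : Curve m → ℝ} (hu : ∀ (e : A m) x, u (act e x) = u x)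
    (x : Curve m) : dn h2 u =ᶠ[𝓝 (pr x)] loc hp u x := by
  filter_upwards [π_localInverse hp x] with z hz
  rw [loc, ← dn_pr h2 hu, hz]

theorem dn_contDiff (h2 : m ≠ 2) (hr0 : 0 < r) {u : TW m r}
    (hu : ∀ (e : A m) x, u.1 (act e x) = u.1 x) : ContDiff ℝ 1 (dn h2 u.1) := by
  rw [contDiff_iff_contDiffAt]
  intro z
  by_cases hz : good m z
  · have h3 := dn_near h2 hu (s0 h2 z)
    have h4 := u.2.1 (s0 h2 z)
    rw [pr_s0 h2 hz] at h3 h4
    exact h4.congr_of_eventuallyEq h3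
  · unfold good at hz
    push Not at hz
    obtain ⟨j, hj⟩ := hz
    have h3 : dn h2 u.1 =ᶠ[𝓝 z] fun _ => 0 := by
      have h4 : ∀ᶠ w in 𝓝 z, ‖w - v m j‖ < r := by
        have h5 : ContinuousAt (fun w : ℂ => ‖w - v m j‖) z := by fun_prop
        exact h5.eventually_lt_const (by simp only [hj, sub_self, norm_zero]; exact hr0)
      filter_upwards [h4] with w hw
      unfold dn
      split_ifs with hg
      · apply u.2.2
        intro hK
        have := hK.2 j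
        rw [pr_s0 h2 hg] at this
        linarith
      · rfl
    exact contDiffAt_const.congr_of_eventuallyEq h3

theorem dn_supp (h2 : m ≠ 2) (u : TW m r) {z : ℂ} (hz : 11 / 10 < ‖z‖) : dn h2 u.1 z = 0 := by
  unfold dn
  split_ifs with hg
  · apply u.2.2
    intro hK
    have := hK.1
    rw [pr_s0 h2 hg] at this
    linarith
  · rfl

theorem adm_self (u : TW m r) : Adm r u.1 := ⟨continuous_of_smooth hp u.2.1, u.2.2⟩

theorem integrable_self (h2 : m ≠ 2) (hr0 : 0 < r) (u : TW m r) :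
    Integrable fun z => u.1 (s0 h2 z) := by
  have := (adm_self u).integrable hr0 h2 1
  simpa only [act_one] using this

/-- the weight of the functional -/
noncomputable def cw (z : ℂ) : ℝ := cs (9 / 8) z.re * cs (9 / 8) z.im

theorem cont_cw : Continuous cw :=
  ((cont_cs _).comp Complex.continuous_re).mul ((cont_cs _).comp Complex.continuous_im)

theorem cw_le (z : ℂ) : ‖cw z‖ ≤ 1 := by
  unfold cw cs
  rw [norm_mul]
  have h1 : ∀ t : ℝ, ‖Real.cos t‖ ≤ 1 := fun t => Real.abs_cos_le_one t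
  calc _ ≤ (1 : ℝ) * 1 := mul_le_mul (h1 _) (h1 _) (norm_nonneg _) (by norm_num)
    _ = 1 := by norm_num

theorem integrable_cw (h2 : m ≠ 2) (hr0 : 0 < r) (u : TW m r) :
    Integrable fun z => u.1 (s0 h2 z) * cw z := by
  have h1 := (integrable_self h2 hr0 u).bdd_mul (c := 1) cont_cw.aestronglyMeasurable
    (ae_of_all _ cw_le)
  refine h1.congr (ae_of_all _ fun z => ?_)
  show cw z * u.1 (s0 h2 z) = _
  ring

/-- the functional -/
noncomputable def ell (h2 : m ≠ 2) (hr0 : 0 < r) : TW m r →ₗ[ℝ] ℝ where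
  toFun u := ∫ z in Qs (9 / 8), u.1 (s0 h2 z) * cw z
  map_add' u w := by
    rw [← integral_add (integrable_cw h2 hr0 u).integrableOn
      (integrable_cw h2 hr0 w).integrableOn]
    congr 1; funext z
    show (u.1 (s0 h2 z) + w.1 (s0 h2 z)) * cw z = _
    ring
  map_smul' c u := by
    rw [RingHom.id_apply, smul_eq_mul, ← integral_const_mul]
    congr 1; funext z
    show (c * u.1 (s0 h2 z)) * cw z = _
    ring

theorem inv_ineq (h2 : m ≠ 2) (hr0 : 0 < r) {ρ : ℂ → ℝ} (hρ : GoodW ρ) {c₀ : ℝ} (hc0 : 0 < c₀)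
    (hn : ∀ z, ‖z‖ ≤ 11 / 10 → c₀ * (19 / 20) ≤ ρ z ∧ ρ z ≤ c₀ * (21 / 20))
    (u : TW m r) (hu : Q ∅ u = u)
    (hl : ell h2 hr0 u = 0) :
    (9 / c₀) * BB hr0 h2 hρ.cont u u ≤ DD hr0 h2 u u := by
  have hinv := inv_of_Q hu
  set f := dn h2 u.1 with hf
  have hfC : ContDiff ℝ 1 f := dn_contDiff h2 hr0 hinv
  have h0 : ∫ z in Qs (9 / 8), f z * (cs (9 / 8) z.re * cs (9 / 8) z.im) = 0 := by
    rw [← hl]
    refine integral_congr_ae (ae_restrict_of_ae ?_)
    filter_upwards [ae_good m] with z hz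
    rw [hf, dn, if_pos hz]
    rfl
  have h1 := P1_plane hfC (fun z hz => dn_supp h2 u hz) hρ hc0 hn h0
  rw [DD_apply, BB_apply]
  have e1 : ip u.1 u.1 = fun x : Curve m =>
      (fun z => fderiv ℝ f z 1 ^ 2 + fderiv ℝ f z I ^ 2) (pr x) := by
    funext x
    have h3 : dAt hp u.1 x = fderiv ℝ f (pr x) := by
      rw [dAt, (dn_near h2 hinv x).fderiv_eq]
    show ip u.1 u.1 x = fderiv ℝ f (pr x) 1 ^ 2 + fderiv ℝ f (pr x) I ^ 2
    rw [ip, h3]; ring
  have e2 : mp ρ u.1 u.1 = fun x : Curve m => (fun z => ρ z * (f z * f z)) (pr x) := by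
    funext x
    show ρ (pr x) * (u.1 x * u.1 x) = ρ (pr x) * (f (pr x) * f (pr x))
    rw [hf, dn_pr h2 hinv]
  rw [FI_pr h2 (fun z => fderiv ℝ f z 1 ^ 2 + fderiv ℝ f z I ^ 2) e1,
    FI_pr h2 (fun z => ρ z * (f z * f z)) e2]
  have h4 : (0 : ℝ) < Fintype.card (A m) := by
    have : 0 < Fintype.card (A m) := Fintype.card_pos
    positivity
  nlinarith [mul_le_mul_of_nonneg_left h1 h4.le]

/-! ### The conclusion for the min-max values -/

theorem mm_main (h2 : m ≠ 2) (hr0 : 0 < r) (hr : r ≤ 1 / 20) {ρ : ℂ → ℝ} (hρ : GoodW ρ) :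
    ∃ Λ : ℝ,
    (∀ c, (∀ w : TW m r, c * BB hr0 h2 hρ.cont w w ≤ DD hr0 h2 w w) → c ≤ Λ) ∧
    ∀ k : ℕ, 1 ≤ k → k < m →
    mm (fun w : TW m r => DD hr0 h2 w w)
      (fun w : TW m r => BB hr0 h2 hρ.cont w w) k = Λ := by
  obtain ⟨c₀, hc0, hn⟩ := hρ.near
  have hDa := fun (u w : TW m r) (e : A m) => DD_act hr0 h2 u w e
  have hBa := fun (u w : TW m r) (e : A m) => BB_act hr0 h2 hρ.cont u w e
  have hBp : ∀ w : TW m r, w ≠ 0 → 0 < BB hr0 h2 hρ.cont w w := fun w hw =>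
    BB_pos hr0 h2 hρ.cont hρ.pos w hw
  have hDr := fun (u w : TW m r) => DD_rot hr0 h2 u w
  have hBr := fun (u w : TW m r) => BB_rot hr0 h2 hρ.cont
    (fun z => hρ.rad _ z (v_norm m 1)) u w
  refine mm_eq (DD hr0 h2) (BB hr0 h2 hρ.cont) hBp (fun w => DD_nonneg hr0 h2 w)
    (Q ∅) (Q_Q ∅) (Q_adj _ hDa ∅) (Q_adj _ hBa ∅) (ell h2 hr0) (9 / c₀)
    (fun u hu hl => inv_ineq h2 hr0 hρ hc0 hn u hu hl)
    ⟨wtt h2 hr, Q_wtt h2 hr, wtt_ne h2 hr, test_ineq h2 hr0 hr hρ hc0 hn⟩ m ?_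
  intro w hw0 hw
  obtain ⟨S, f, hS1, hS2, hf, hf0, hle⟩ := exists_sector (DD hr0 h2)
    (BB hr0 h2 hρ.cont) hDa hBa hBp w hw0 hw
  refine ⟨fun i => (Tr)^[i.1] f, DD hr0 h2 f f, BB hr0 h2 hρ.cont f f,
    fun i j hij => iter_orth _ h2 hDa hf hS1 hS2 i j hij,
    fun i j hij => iter_orth _ h2 hBa hf hS1 hS2 i j hij,
    fun i => iter_inv _ hDr f i.1, fun i => iter_inv _ hBr f i.1, hBp f hf0, hle⟩

end Pool.Agent.KS6_69.DM
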