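import Pool.Agent.KS6_69.DM.Plane

open Set Filter Topology MeasureTheory
open scoped ContDiff Interval

namespace Pool.Agent.KS6_69.DM

/-- one dimensional Wirtinger inequality, by the Jacobi trick -/
theorem W1 {a b k : ℝ} (hab : a ≤ b) (hk : 0 ≤ k) (hkb : k * (b - a) < Real.pi) {w w' : ℝ → ℝ}
    (hw : ∀ t, HasDerivAt w (w' t) t) (hc : Continuous w') (h0 : w a = 0) (h1 : w b = 0) :
    k ^ 2 * ∫ t in a..b, w t ^ 2 ≤ ∫ t in a..b, w' t ^ 2 := by
  set c := (a + b) / 2 with hcd
  have hwc : Continuous w := continuous_iff_continuousAt.2 fun t => (hw t).continuousAt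
  have hcos : ∀ t ∈ Icc a b, 0 < Real.cos (k * (t - c)) := by
    intro t ht
    apply Real.cos_pos_of_mem_Ioo
    have h3 : |t - c| ≤ (b - a) / 2 := by
      rw [abs_le]; constructor <;> rw [hcd] <;> linarith [ht.1, ht.2]
    have h4 : |k * (t - c)| < Real.pi / 2 := by
      rw [abs_mul, abs_of_nonneg hk]
      have := mul_le_mul_of_nonneg_left h3 hk
      linarith
    rw [abs_lt] at h4
    exact ⟨by linarith [h4.1], h4.2⟩
  set G' : ℝ → ℝ := fun t => k * ((1 / Real.cos (k * (t - c)) ^ 2) * k) * w t ^ 2 +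
    k * Real.tan (k * (t - c)) * (2 * w t * w' t) with hG'
  have hG : ∀ t ∈ Icc a b, HasDerivAt (fun t => k * Real.tan (k * (t - c)) * w t ^ 2) (G' t) t := by
    intro t ht
    have e1 : HasDerivAt (fun t : ℝ => k * (t - c)) k t := by
      simpa using ((hasDerivAt_id t).sub_const c).const_mul k
    have e2 : HasDerivAt (fun t : ℝ => Real.tan (k * (t - c)))
        (1 / Real.cos (k * (t - c)) ^ 2 * k) t :=
      HasDerivAt.comp (h₂ := Real.tan) (h := fun t : ℝ => k * (t - c)) t
        (Real.hasDerivAt_tan (hcos t ht).ne') e1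
    have e3 : HasDerivAt (fun t => w t ^ 2) (2 * w t * w' t) t := by
      have := (hw t).fun_pow 2
      simpa using this
    exact (e2.const_mul k).fun_mul e3
  have hG'c : ContinuousOn G' (Icc a b) := by
    have c1 : ContinuousOn (fun t : ℝ => Real.cos (k * (t - c))) (Icc a b) := by fun_prop
    have c2 : ContinuousOn (fun t : ℝ => Real.tan (k * (t - c))) (Icc a b) := by
      simp only [Real.tan_eq_sin_div_cos]
      exact ContinuousOn.div (by fun_prop) c1 fun t ht => (hcos t ht).ne'
    have c3 : ContinuousOn (fun t : ℝ => 1 / Real.cos (k * (t - c)) ^ 2) (Icc a b) :=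
      ContinuousOn.div continuousOn_const (c1.pow 2) fun t ht => pow_ne_zero 2 (hcos t ht).ne'
    rw [hG']
    exact ((continuousOn_const.mul (c3.mul continuousOn_const)).mul
      (hwc.pow 2).continuousOn).add ((continuousOn_const.mul c2).mul
      ((continuous_const.mul hwc).mul hc).continuousOn)
  have i1 : IntervalIntegrable G' volume a b := by
    apply ContinuousOn.intervalIntegrable
    rw [uIcc_of_le hab]; exact hG'c
  have hint : ∫ t in a..b, G' t = 0 := by
    rw [intervalIntegral.integral_eq_sub_of_hasDerivAt (fun t ht => hG t (by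
      rwa [uIcc_of_le hab] at ht)) i1, h0, h1]
    simp
  have i2 : IntervalIntegrable (fun t => w' t ^ 2) volume a b :=
    Continuous.intervalIntegrable (by fun_prop) _ _
  have i3 : IntervalIntegrable (fun t => k ^ 2 * w t ^ 2) volume a b :=
    Continuous.intervalIntegrable (by fun_prop) _ _
  have hnn : 0 ≤ ∫ t in a..b, (w' t ^ 2 - k ^ 2 * w t ^ 2) + G' t := by
    refine intervalIntegral.integral_nonneg hab fun t ht => ?_
    have hcp := hcos t ht
    have e1 : 1 / Real.cos (k * (t - c)) ^ 2 = 1 + Real.tan (k * (t - c)) ^ 2 := by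
      rw [Real.tan_eq_sin_div_cos]
      have := Real.sin_sq_add_cos_sq (k * (t - c))
      field_simp
      linarith
    have e2 : (w' t ^ 2 - k ^ 2 * w t ^ 2) + G' t = (w' t + k * Real.tan (k * (t - c)) * w t) ^ 2 := by
      rw [hG']
      simp only [e1]
      ring
    rw [e2]; positivity
  rw [intervalIntegral.integral_add (i2.sub i3) i1, intervalIntegral.integral_sub i2 i3, hint,
    intervalIntegral.integral_const_mul] at hnn
  linarith

/-- the first Dirichlet eigenfunction of the interval -/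
noncomputable def cs (h : ℝ) (t : ℝ) : ℝ := Real.cos (Real.pi / (2 * h) * t)

theorem cont_cs (h : ℝ) : Continuous (cs h) := by unfold cs; fun_prop

theorem cs_zero (h : ℝ) : cs h 0 = 1 := by simp [cs]

theorem cs_h {h : ℝ} (hh : 0 < h) : cs h h = 0 := by
  unfold cs
  have : Real.pi / (2 * h) * h = Real.pi / 2 := by field_simp
  rw [this, Real.cos_pi_div_two]

theorem cs_neg (h t : ℝ) : cs h (-t) = cs h t := by
  unfold cs; rw [mul_neg, Real.cos_neg]

theorem cs_deriv (h t : ℝ) : HasDerivAt (cs h)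
    (-(Real.pi / (2 * h) * Real.sin (Real.pi / (2 * h) * t))) t := by
  have e1 : HasDerivAt (fun t : ℝ => Real.pi / (2 * h) * t) (Real.pi / (2 * h)) t := by
    simpa using (hasDerivAt_id t).const_mul (Real.pi / (2 * h))
  exact e1.cos.congr_deriv (by ring)

theorem sn_deriv (h t : ℝ) : HasDerivAt (fun t => -(Real.pi / (2 * h) *
    Real.sin (Real.pi / (2 * h) * t))) (-((Real.pi / (2 * h)) ^ 2 * cs h t)) t := by
  have e1 : HasDerivAt (fun t : ℝ => Real.pi / (2 * h) * t) (Real.pi / (2 * h)) t := by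
    simpa using (hasDerivAt_id t).const_mul (Real.pi / (2 * h))
  exact ((e1.sin.const_mul (Real.pi / (2 * h))).fun_neg).congr_deriv (by unfold cs; ring)

theorem int_cs2 {h : ℝ} (hh : 0 < h) : ∫ t in (-h)..h, cs h t ^ 2 = h := by
  set q := Real.pi / (2 * h) with hq
  have hq0 : 0 < q := by positivity
  have hd : ∀ t ∈ uIcc (-h) h, HasDerivAt (fun t : ℝ => t / 2 + Real.sin (2 * q * t) / (4 * q))
      (cs h t ^ 2) t := by
    intro t _
    have e1 : HasDerivAt (fun t : ℝ => 2 * q * t) (2 * q) t := by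
      simpa using (hasDerivAt_id t).const_mul (2 * q)
    have e2 := ((hasDerivAt_id t).div_const 2).fun_add (e1.sin.div_const (4 * q))
    refine e2.congr_deriv ?_
    unfold cs
    rw [← hq]
    have : Real.cos (2 * q * t) = 2 * Real.cos (q * t) ^ 2 - 1 := by
      rw [← Real.cos_two_mul]; ring_nf
    rw [this]
    field_simp
    ring
  rw [intervalIntegral.integral_eq_sub_of_hasDerivAt hd
    (((cont_cs h).pow 2).intervalIntegrable _ _)]
  have e1 : 2 * q * h = Real.pi := by rw [hq]; field_simp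
  have e2 : 2 * q * (-h) = -Real.pi := by rw [mul_neg, e1]
  rw [e1, e2, Real.sin_neg, Real.sin_pi]
  ring

theorem int_sn2 {h : ℝ} (hh : 0 < h) :
    ∫ t in (-h)..h, (-(Real.pi / (2 * h) * Real.sin (Real.pi / (2 * h) * t))) ^ 2 =
      (Real.pi / (2 * h)) ^ 2 * h := by
  have e1 : ∀ t, (-(Real.pi / (2 * h) * Real.sin (Real.pi / (2 * h) * t))) ^ 2 =
      (Real.pi / (2 * h)) ^ 2 * (1 - cs h t ^ 2) := by
    intro t
    unfold cs
    have := Real.sin_sq_add_cos_sq (Real.pi / (2 * h) * t)
    have e2 : Real.sin (Real.pi / (2 * h) * t) ^ 2 = 1 - Real.cos (Real.pi / (2 * h) * t) ^ 2 := by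
      linarith
    rw [neg_sq, mul_pow, e2]
  simp only [e1]
  have hc2 : Continuous fun t => cs h t ^ 2 := (cont_cs h).pow 2
  rw [intervalIntegral.integral_const_mul, intervalIntegral.integral_sub
    (continuous_const.intervalIntegrable _ _) (hc2.intervalIntegrable _ _),
    int_cs2 hh]
  simp

/-- second eigenvalue inequality in dimension one -/
theorem W2 {h k : ℝ} (hh : 0 < h) (hk : 0 ≤ k) (hkh : k * h < Real.pi)
    (hk2 : (Real.pi / (2 * h)) ^ 2 ≤ k ^ 2) {w w' : ℝ → ℝ}
    (hw : ∀ t, HasDerivAt w (w' t) t) (hc : Continuous w') (h0 : w (-h) = 0) (h1 : w h = 0) :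
    k ^ 2 * (∫ t in (-h)..h, w t ^ 2) - (k ^ 2 - (Real.pi / (2 * h)) ^ 2) / h *
      (∫ t in (-h)..h, w t * cs h t) ^ 2 ≤ ∫ t in (-h)..h, w' t ^ 2 := by
  have hwc : Continuous w := continuous_iff_continuousAt.2 fun t => (hw t).continuousAt
  set q := Real.pi / (2 * h) with hq
  set s := w 0 with hs
  set I := ∫ t in (-h)..h, w t * cs h t with hI
  set c' : ℝ → ℝ := fun t => -(q * Real.sin (q * t)) with hc'
  have hcs := cont_cs h
  have hc'c : Continuous c' := by rw [hc']; fun_prop
  set v : ℝ → ℝ := fun t => w t - s * cs h t with hv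
  set v' : ℝ → ℝ := fun t => w' t - s * c' t with hv'
  have hvd : ∀ t, HasDerivAt v (v' t) t := fun t => (hw t).sub ((cs_deriv h t).const_mul s)
  have hv'c : Continuous v' := hc.sub (continuous_const.mul hc'c)
  have hvc : Continuous v := hwc.sub (continuous_const.mul hcs)
  have hv0 : v 0 = 0 := by rw [hv]; simp only [cs_zero]; rw [← hs]; ring
  have hvh : v h = 0 := by rw [hv]; simp only [cs_h hh, h1]; ring
  have hvn : v (-h) = 0 := by rw [hv]; simp only [cs_neg, cs_h hh, h0]; ring
  have k1 := W1 (a := -h) (b := 0) (k := k) (by linarith) hk (by linarith) hvd hv'c hvn hv0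
  have k2 := W1 (a := 0) (b := h) (k := k) (by linarith) hk (by linarith) hvd hv'c hv0 hvh
  have i2 : ∀ a b, IntervalIntegrable (fun t => v t ^ 2) volume a b := fun a b =>
    (hvc.pow 2).intervalIntegrable _ _
  have i2' : ∀ a b, IntervalIntegrable (fun t => v' t ^ 2) volume a b := fun a b =>
    (hv'c.pow 2).intervalIntegrable _ _
  have k3 : k ^ 2 * ∫ t in (-h)..h, v t ^ 2 ≤ ∫ t in (-h)..h, v' t ^ 2 := by
    rw [← intervalIntegral.integral_add_adjacent_intervals (i2 (-h) 0) (i2 0 h),
      ← intervalIntegral.integral_add_adjacent_intervals (i2' (-h) 0) (i2' 0 h)]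
    linarith
  have e1 : ∫ t in (-h)..h, v t ^ 2 = (∫ t in (-h)..h, w t ^ 2) - 2 * s * I + s ^ 2 * h := by
    have e : ∀ t, v t ^ 2 = (w t ^ 2 - 2 * s * (w t * cs h t)) + s ^ 2 * cs h t ^ 2 := fun t => by
      rw [hv]; ring
    simp only [e]
    rw [intervalIntegral.integral_add, intervalIntegral.integral_sub,
      intervalIntegral.integral_const_mul, intervalIntegral.integral_const_mul, int_cs2 hh]
    all_goals exact Continuous.intervalIntegrable (by fun_prop) _ _
  have e3 : ∫ t in (-h)..h, w' t * c' t = q ^ 2 * I := by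
    have hd : ∀ t ∈ uIcc (-h) h, HasDerivAt (fun t => w t * c' t)
        (w' t * c' t + w t * (-(q ^ 2 * cs h t))) t := fun t _ => (hw t).mul (sn_deriv h t)
    have h5 := intervalIntegral.integral_eq_sub_of_hasDerivAt hd
      (Continuous.intervalIntegrable (by fun_prop) _ _)
    rw [h0, h1, intervalIntegral.integral_add (Continuous.intervalIntegrable (by fun_prop) _ _)
      (Continuous.intervalIntegrable (by fun_prop) _ _)] at h5
    have h6 : ∫ t in (-h)..h, w t * (-(q ^ 2 * cs h t)) = -(q ^ 2 * I) := by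
      have e : ∀ t, w t * (-(q ^ 2 * cs h t)) = -(q ^ 2) * (w t * cs h t) := fun t => by ring
      simp only [e]
      rw [intervalIntegral.integral_const_mul]; ring
    rw [h6] at h5
    linarith
  have e4 : ∫ t in (-h)..h, c' t ^ 2 = q ^ 2 * h := int_sn2 hh
  have e2 : ∫ t in (-h)..h, v' t ^ 2 = (∫ t in (-h)..h, w' t ^ 2) - 2 * s * (q ^ 2 * I) +
      s ^ 2 * (q ^ 2 * h) := by
    have e : ∀ t, v' t ^ 2 = (w' t ^ 2 - 2 * s * (w' t * c' t)) + s ^ 2 * c' t ^ 2 := fun t => by
      rw [hv']; ring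
    simp only [e]
    rw [intervalIntegral.integral_add, intervalIntegral.integral_sub,
      intervalIntegral.integral_const_mul, intervalIntegral.integral_const_mul, e3, e4]
    all_goals exact Continuous.intervalIntegrable (by fun_prop) _ _
  rw [e1, e2] at k3
  have h7 : 0 ≤ k ^ 2 - q ^ 2 := by linarith
  have h8 : 0 ≤ (k ^ 2 - q ^ 2) / h * (s * h - I) ^ 2 := by positivity
  have h9 : (k ^ 2 - q ^ 2) / h * (s * h - I) ^ 2 = (k ^ 2 - q ^ 2) * (s ^ 2 * h - 2 * s * I) +
      (k ^ 2 - q ^ 2) / h * I ^ 2 := by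
    field_simp
    ring
  rw [h9] at h8
  linarith

end Pool.Agent.KS6_69.DM
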